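import Mathlib

set_option autoImplicit false

/-!
Matchings and bichromatic cherries in two-coloured complete graphs.
Colour classes are sets `A : Set (Sym2 V)` of unordered pairs; the other colour is `Aᶜ`.
-/

namespace Pool.Agent.helper17.Cherry

variable {V : Type*}

/-- `R` is a family of pairwise disjoint pairs inside `S`, all of them belonging to `A`. -/
def IsM (A : Set (Sym2 V)) (S : Finset V) (R : Finset (V × V)) : Prop :=
  (∀ p ∈ R, p.1 ∈ S ∧ p.2 ∈ S ∧ p.1 ≠ p.2 ∧ s(p.1, p.2) ∈ A) ∧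
  (∀ p ∈ R, ∀ q ∈ R, p ≠ q → p.1 ≠ q.1 ∧ p.1 ≠ q.2 ∧ p.2 ≠ q.1 ∧ p.2 ≠ q.2)

/-- there is an `A`-matching with `t` edges inside `S`. -/
def HasM (A : Set (Sym2 V)) (S : Finset V) (t : ℕ) : Prop :=
  ∃ R, IsM A S R ∧ R.card = t

/-- `C` is a family of pairwise disjoint bichromatic cherries `(x, y, z)` inside `S`,
with `xy` in `A` and `yz` not in `A`. -/
def IsC (A : Set (Sym2 V)) (S : Finset V) (C : Finset (V × V × V)) : Prop :=
  (∀ c ∈ C, c.1 ∈ S ∧ c.2.1 ∈ S ∧ c.2.2 ∈ S ∧ c.1 ≠ c.2.1 ∧ c.1 ≠ c.2.2 ∧ c.2.1 ≠ c.2.2 ∧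
    s(c.1, c.2.1) ∈ A ∧ s(c.2.1, c.2.2) ∉ A) ∧
  (∀ c ∈ C, ∀ d ∈ C, c ≠ d →
    c.1 ≠ d.1 ∧ c.1 ≠ d.2.1 ∧ c.1 ≠ d.2.2 ∧
    c.2.1 ≠ d.1 ∧ c.2.1 ≠ d.2.1 ∧ c.2.1 ≠ d.2.2 ∧
    c.2.2 ≠ d.1 ∧ c.2.2 ≠ d.2.1 ∧ c.2.2 ≠ d.2.2)

def HasC (A : Set (Sym2 V)) (S : Finset V) (t : ℕ) : Prop :=
  ∃ C, IsC A S C ∧ C.card = t

lemma IsM.subset {A : Set (Sym2 V)} {S : Finset V} {R R' : Finset (V × V)} (h : IsM A S R)
    (hs : R' ⊆ R) : IsM A S R' :=
  ⟨fun p hp => h.1 p (hs hp), fun p hp q hq => h.2 p (hs hp) q (hs hq)⟩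

lemma IsM.mono {A : Set (Sym2 V)} {S S' : Finset V} {R : Finset (V × V)} (h : IsM A S R)
    (hs : S ⊆ S') : IsM A S' R :=
  ⟨fun p hp => ⟨hs (h.1 p hp).1, hs (h.1 p hp).2.1, (h.1 p hp).2.2⟩, h.2⟩

lemma HasM.le {A : Set (Sym2 V)} {S : Finset V} {t t' : ℕ} (h : HasM A S t) (ht : t' ≤ t) :
    HasM A S t' := by
  obtain ⟨R, hR, hc⟩ := h
  obtain ⟨R', hR', hc'⟩ := Finset.exists_subset_card_eq (s := R) (n := t') (by omega)
  exact ⟨R', hR.subset hR', hc'⟩

lemma HasM.mono {A : Set (Sym2 V)} {S S' : Finset V} {t : ℕ} (h : HasM A S t) (hs : S ⊆ S') :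
    HasM A S' t := by
  obtain ⟨R, hR, hc⟩ := h
  exact ⟨R, hR.mono hs, hc⟩

lemma hasM_zero (A : Set (Sym2 V)) (S : Finset V) : HasM A S 0 := ⟨∅, by simp [IsM], rfl⟩

lemma hasC_zero (A : Set (Sym2 V)) (S : Finset V) : HasC A S 0 := ⟨∅, by simp [IsC], rfl⟩

variable [DecidableEq V]

/-- inserting a fresh pair. -/
lemma IsM.insert_pair {A : Set (Sym2 V)} {S : Finset V} {R : Finset (V × V)} (h : IsM A S R)
    {x y : V} (hx : x ∈ S) (hy : y ∈ S) (hxy : x ≠ y) (hA : s(x, y) ∈ A)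
    (hxR : ∀ p ∈ R, x ≠ p.1 ∧ x ≠ p.2) (hyR : ∀ p ∈ R, y ≠ p.1 ∧ y ≠ p.2) :
    IsM A S (insert (x, y) R) ∧ (insert (x, y) R).card = R.card + 1 := by
  have hnot : (x, y) ∉ R := fun hm => (hxR _ hm).1 rfl
  refine ⟨⟨?_, ?_⟩, Finset.card_insert_of_notMem hnot⟩
  · intro p hp
    rcases Finset.mem_insert.mp hp with rfl | hp
    · exact ⟨hx, hy, hxy, hA⟩
    · exact h.1 p hp
  · intro p hp q hq hpq
    rcases Finset.mem_insert.mp hp with rfl | hp
    · rcases Finset.mem_insert.mp hq with rfl | hq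
      · exact absurd rfl hpq
      · exact ⟨(hxR q hq).1, (hxR q hq).2, (hyR q hq).1, (hyR q hq).2⟩
    · rcases Finset.mem_insert.mp hq with rfl | hq
      · exact ⟨(hxR p hp).1.symm, (hyR p hp).1.symm, (hxR p hp).2.symm, (hyR p hp).2.symm⟩
      · exact h.2 p hp q hq hpq

/-- extending a matching living in `S \ U` by an edge inside `U`. -/
lemma HasM.succ_of_sdiff {A : Set (Sym2 V)} {S U : Finset V} {t : ℕ} (h : HasM A (S \ U) t)
    {x y : V} (hxU : x ∈ U) (hyU : y ∈ U) (hx : x ∈ S) (hy : y ∈ S) (hxy : x ≠ y)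
    (hA : s(x, y) ∈ A) : HasM A S (t + 1) := by
  obtain ⟨R, hR, hc⟩ := h
  have key : ∀ u ∈ U, ∀ p ∈ R, u ≠ p.1 ∧ u ≠ p.2 := by
    intro u hu p hp
    obtain ⟨h1, h2, -, -⟩ := hR.1 p hp
    rw [Finset.mem_sdiff] at h1 h2
    exact ⟨fun h => h1.2 (h ▸ hu), fun h => h2.2 (h ▸ hu)⟩
  obtain ⟨h1, h2⟩ := (hR.mono Finset.sdiff_subset).insert_pair hx hy hxy hA (key x hxU) (key y hyU)
  exact ⟨_, h1, by rw [h2, hc]⟩

lemma HasC.succ_of_sdiff {A : Set (Sym2 V)} {S : Finset V} {t : ℕ} {x y z : V}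
    (h : HasC A (S \ {x, y, z}) t)
    (hx : x ∈ S) (hy : y ∈ S) (hz : z ∈ S) (hxy : x ≠ y) (hxz : x ≠ z) (hyz : y ≠ z)
    (hA : s(x, y) ∈ A) (hB : s(y, z) ∉ A) : HasC A S (t + 1) := by
  obtain ⟨C, hC, hc⟩ := h
  have key : ∀ c ∈ C, ∀ u, u ∈ ({x, y, z} : Finset V) → u ≠ c.1 ∧ u ≠ c.2.1 ∧ u ≠ c.2.2 := by
    intro c hcC u hu
    obtain ⟨h1, h2, h3, -⟩ := hC.1 c hcC
    rw [Finset.mem_sdiff] at h1 h2 h3
    exact ⟨fun h => h1.2 (h ▸ hu), fun h => h2.2 (h ▸ hu), fun h => h3.2 (h ▸ hu)⟩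
  have kx : ∀ c ∈ C, x ≠ c.1 ∧ x ≠ c.2.1 ∧ x ≠ c.2.2 := fun c hc => key c hc x (by simp)
  have ky : ∀ c ∈ C, y ≠ c.1 ∧ y ≠ c.2.1 ∧ y ≠ c.2.2 := fun c hc => key c hc y (by simp)
  have kz : ∀ c ∈ C, z ≠ c.1 ∧ z ≠ c.2.1 ∧ z ≠ c.2.2 := fun c hc => key c hc z (by simp)
  have hnot : (x, y, z) ∉ C := fun hm => (kx _ hm).1 rfl
  refine ⟨insert (x, y, z) C, ⟨?_, ?_⟩, by rw [Finset.card_insert_of_notMem hnot, hc]⟩
  · intro c hcC
    rcases Finset.mem_insert.mp hcC with rfl | hcC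
    · exact ⟨hx, hy, hz, hxy, hxz, hyz, hA, hB⟩
    · obtain ⟨h1, h2, h3, h4⟩ := hC.1 c hcC
      exact ⟨Finset.sdiff_subset h1, Finset.sdiff_subset h2, Finset.sdiff_subset h3, h4⟩
  · intro c hcC d hd hne
    rcases Finset.mem_insert.mp hcC with rfl | hcC
    · rcases Finset.mem_insert.mp hd with rfl | hd
      · exact absurd rfl hne
      · obtain ⟨a1, a2, a3⟩ := kx d hd
        obtain ⟨b1, b2, b3⟩ := ky d hd
        obtain ⟨c1, c2, c3⟩ := kz d hd
        exact ⟨a1, a2, a3, b1, b2, b3, c1, c2, c3⟩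
    · rcases Finset.mem_insert.mp hd with rfl | hd
      · obtain ⟨a1, a2, a3⟩ := kx c hcC
        obtain ⟨b1, b2, b3⟩ := ky c hcC
        obtain ⟨c1, c2, c3⟩ := kz c hcC
        exact ⟨a1.symm, b1.symm, c1.symm, a2.symm, b2.symm, c2.symm, a3.symm, b3.symm, c3.symm⟩
      · exact hC.2 c hcC d hd hne

omit [DecidableEq V] in
/-- existence of a matching of maximum size -/
lemma exists_max (A : Set (Sym2 V)) (S : Finset V) :
    ∃ R, IsM A S R ∧ ∀ R', IsM A S R' → R'.card ≤ R.card := by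
  classical
  let F : Finset (Finset (V × V)) := (S ×ˢ S).powerset.filter (fun R => IsM A S R)
  have hF : F.Nonempty := ⟨∅, by simp [F, IsM]⟩
  obtain ⟨R, hR, hmax⟩ := Finset.exists_max_image F Finset.card hF
  refine ⟨R, (Finset.mem_filter.mp hR).2, fun R' hR' => hmax R' ?_⟩
  refine Finset.mem_filter.mpr ⟨Finset.mem_powerset.mpr fun p hp => ?_, hR'⟩
  exact Finset.mem_product.mpr ⟨(hR'.1 p hp).1, (hR'.1 p hp).2.1⟩

/-- the set of vertices covered by `R` -/
def cov (R : Finset (V × V)) : Finset V := R.biUnion (fun p => {p.1, p.2})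

lemma mem_cov {R : Finset (V × V)} {v : V} : v ∈ cov R ↔ ∃ p ∈ R, v = p.1 ∨ v = p.2 := by
  simp [cov]

lemma IsM.cov_subset {A : Set (Sym2 V)} {S : Finset V} {R : Finset (V × V)} (h : IsM A S R) :
    cov R ⊆ S := by
  intro v hv
  obtain ⟨p, hp, rfl | rfl⟩ := mem_cov.mp hv
  · exact (h.1 p hp).1
  · exact (h.1 p hp).2.1

lemma IsM.card_cov {A : Set (Sym2 V)} {S : Finset V} {R : Finset (V × V)} (h : IsM A S R) :
    (cov R).card = 2 * R.card := by
  rw [cov, Finset.card_biUnion]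
  · rw [Finset.sum_congr rfl (fun p hp => Finset.card_pair (h.1 p hp).2.2.1)]
    simp [mul_comm]
  · intro p hp q hq hpq
    obtain ⟨h1, h2, h3, h4⟩ := h.2 p hp q hq hpq
    rw [Function.onFun, Finset.disjoint_left]
    intro a ha hb
    simp only [Finset.mem_insert, Finset.mem_singleton] at ha hb
    rcases ha with rfl | rfl <;> rcases hb with hb | hb <;> contradiction

/-- in a complete monochromatic set a matching of size `t` exists as soon as there are
`2 * t` vertices. -/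
lemma hasM_of_clique (A : Set (Sym2 V)) (t : ℕ) : ∀ (S : Finset V), 2 * t ≤ S.card →
    (∀ x ∈ S, ∀ y ∈ S, x ≠ y → s(x, y) ∈ A) → HasM A S t := by
  induction t with
  | zero => intro S _ _; exact hasM_zero A S
  | succ t ih =>
    intro S hS hA
    obtain ⟨x, hx, y, hy, hxy⟩ := Finset.one_lt_card.mp (show 1 < S.card by omega)
    have hc : (S \ {x, y}).card = S.card - 2 := by
      rw [Finset.card_sdiff_of_subset (by intro a ha; simp at ha; rcases ha with rfl | rfl <;> assumption),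
        Finset.card_pair hxy]
    have := ih (S \ {x, y}) (by omega) (fun a ha b hb => hA a (Finset.sdiff_subset ha) b
      (Finset.sdiff_subset hb))
    exact this.succ_of_sdiff (x := x) (y := y) (by simp) (by simp) hx hy hxy (hA x hx y hy hxy)


/-- the set of unordered pairs with both ends in `S` contains pairs in `A` and not in `A`, so
there is a bichromatic cherry. -/
lemma exists_cherry {A : Set (Sym2 V)} {S : Finset V} {a b c d : V}
    (ha : a ∈ S) (hb : b ∈ S) (hc : c ∈ S) (hd : d ∈ S) (hab : a ≠ b) (hcd : c ≠ d)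
    (hA : s(a, b) ∈ A) (hB : s(c, d) ∉ A) :
    ∃ x ∈ S, ∃ y ∈ S, ∃ z ∈ S, x ≠ y ∧ x ≠ z ∧ y ≠ z ∧ s(x, y) ∈ A ∧ s(y, z) ∉ A := by
  have hswap : ∀ u v : V, s(u, v) = s(v, u) := fun u v => Sym2.eq_swap
  by_cases hac : a = c
  · subst hac
    refine ⟨b, hb, a, ha, d, hd, hab.symm, ?_, hcd, by rwa [hswap], hB⟩
    rintro rfl
    exact hB hA
  · by_cases hmem : s(a, c) ∈ A
    · by_cases had : a = d
      · subst had
        refine ⟨b, hb, a, ha, c, hc, hab.symm, ?_, hac, by rwa [hswap], by rwa [hswap]⟩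
        rintro rfl
        exact hB (by rwa [hswap])
      · exact ⟨a, ha, c, hc, d, hd, hac, had, hcd, hmem, hB⟩
    · refine ⟨b, hb, a, ha, c, hc, hab.symm, ?_, hac, by rwa [hswap], hmem⟩
      rintro rfl
      exact hmem hA

/-- two colours: with at least `3 t - 1` vertices one colour has a matching of size `t`. -/
lemma two_colour (A : Set (Sym2 V)) (t : ℕ) : ∀ (S : Finset V), 3 * t ≤ S.card + 1 →
    HasM A S t ∨ HasM Aᶜ S t := by
  induction t with
  | zero => intro S _; exact Or.inl (hasM_zero A S)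
  | succ t ih =>
    intro S hS
    by_cases h1 : ∀ x ∈ S, ∀ y ∈ S, x ≠ y → s(x, y) ∈ A
    · exact Or.inl (hasM_of_clique A _ S (by omega) h1)
    by_cases h2 : ∀ x ∈ S, ∀ y ∈ S, x ≠ y → s(x, y) ∈ Aᶜ
    · exact Or.inr (hasM_of_clique Aᶜ _ S (by omega) h2)
    push Not at h1 h2
    obtain ⟨c, hc, d, hd, hcd, hB⟩ := h1
    obtain ⟨a, ha, b, hb, hab, hA⟩ := h2
    rw [Set.notMem_compl_iff] at hA
    obtain ⟨x, hx, y, hy, z, hz, hxy, hxz, hyz, h3, h4⟩ := exists_cherry ha hb hc hd hab hcd hA hB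
    have hcard : (S \ {x, y, z}).card = S.card - 3 := by
      rw [Finset.card_sdiff_of_subset (by
        intro a ha; simp at ha; rcases ha with rfl | rfl | rfl <;> assumption)]
      rw [Finset.card_eq_three.mpr ⟨x, y, z, hxy, hxz, hyz, rfl⟩]
    rcases ih (S \ {x, y, z}) (by omega) with h | h
    · exact Or.inl (h.succ_of_sdiff (x := x) (y := y) (by simp) (by simp) hx hy hxy h3)
    · exact Or.inr (h.succ_of_sdiff (x := y) (y := z) (by simp) (by simp) hy hz hyz h4)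

/-- three colours, given by a map `c` into `Fin 3`: with at least `4 t - 2` vertices one colour
has a matching of size `t` (Cockayne and Lorimer for three equal sizes). -/
lemma three_colour (c : Sym2 V → Fin 3) (t : ℕ) : ∀ (S : Finset V), 4 * t ≤ S.card + 2 →
    ∃ i, HasM {e | c e = i} S t := by
  have hswap : ∀ u v : V, s(u, v) = s(v, u) := fun u v => Sym2.eq_swap
  induction t with
  | zero => intro S _; exact ⟨0, hasM_zero _ S⟩
  | succ t ih =>
    intro S hS
    -- some colour missing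
    by_cases hmiss : ∃ j, ∀ x ∈ S, ∀ y ∈ S, x ≠ y → c s(x, y) ≠ j
    · obtain ⟨j, hj⟩ := hmiss
      obtain ⟨i, k, hik⟩ : ∃ i k : Fin 3, ∀ m : Fin 3, m ≠ j → m ≠ i → m = k := by
        fin_cases j
        · exact ⟨1, 2, by decide⟩
        · exact ⟨0, 2, by decide⟩
        · exact ⟨0, 1, by decide⟩
      rcases two_colour {e | c e = i} (t + 1) S (by omega) with h | h
      · exact ⟨i, h⟩
      · refine ⟨k, ?_⟩
        obtain ⟨R, hR, hcR⟩ := h
        refine ⟨R, ⟨fun p hp => ?_, hR.2⟩, hcR⟩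
        obtain ⟨g1, g2, g3, g4⟩ := hR.1 p hp
        exact ⟨g1, g2, g3, hik _ (hj _ g1 _ g2 g3) g4⟩
    · push Not at hmiss
      -- a four-element set seeing all colours
      obtain ⟨U, hUS, hU4, hUc⟩ : ∃ U : Finset V, U ⊆ S ∧ U.card ≤ 4 ∧
          ∀ j, ∃ x ∈ U, ∃ y ∈ U, x ≠ y ∧ c s(x, y) = j := by
        obtain ⟨a1, ha1, b1, hb1, hab1, h1⟩ := hmiss 0
        obtain ⟨a2, ha2, b2, hb2, hab2, h2⟩ := hmiss 1
        obtain ⟨x, hx, y, hy, z, hz, hxy, hxz, hyz, h3, h4⟩ :=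
          exists_cherry (A := {e | c e = 0}) ha1 hb1 ha2 hb2 hab1 hab2 h1 (by simp [h2])
        -- colours p = 0 of xy and q ≠ 0 of yz, third colour r
        simp only [Set.mem_ofPred_eq] at h3 h4
        obtain ⟨r, hr0, hrq, hall⟩ : ∃ r : Fin 3, r ≠ 0 ∧ r ≠ c s(y, z) ∧
            ∀ m : Fin 3, m = 0 ∨ m = c s(y, z) ∨ m = r := by
          generalize c s(y, z) = q at h4
          fin_cases q
          · exact absurd rfl h4
          · exact ⟨2, by decide, by decide, by decide⟩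
          · exact ⟨1, by decide, by decide, by decide⟩
        obtain ⟨u, hu, v, hv, huv, h5⟩ := hmiss r
        -- it suffices to see the three colours
        have fin : ∀ U : Finset V, U ⊆ S → U.card ≤ 4 →
            (∃ x ∈ U, ∃ y ∈ U, x ≠ y ∧ c s(x, y) = 0) →
            (∃ x' ∈ U, ∃ y' ∈ U, x' ≠ y' ∧ c s(x', y') = c s(y, z)) →
            (∃ x' ∈ U, ∃ y' ∈ U, x' ≠ y' ∧ c s(x', y') = r) →
            ∃ U : Finset V, U ⊆ S ∧ U.card ≤ 4 ∧
              ∀ j, ∃ x ∈ U, ∃ y ∈ U, x ≠ y ∧ c s(x, y) = j := by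
          intro U hU hU4 e1 e2 e3
          refine ⟨U, hU, hU4, fun j => ?_⟩
          rcases hall j with rfl | rfl | rfl
          · exact e1
          · exact e2
          · exact e3
        have sub4 : ∀ p q s w : V, p ∈ S → q ∈ S → s ∈ S → w ∈ S → ({p, q, s, w} : Finset V) ⊆ S := by
          intro p q s w hp hq hs hw a ha
          simp only [Finset.mem_insert, Finset.mem_singleton] at ha
          rcases ha with rfl | rfl | rfl | rfl <;> assumption
        by_cases hzu : u = x ∨ u = y ∨ u = z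
        · refine fin {x, y, z, v} (sub4 _ _ _ _ hx hy hz hv) Finset.card_le_four ?_ ?_ ?_
          · exact ⟨x, by simp, y, by simp, hxy, h3⟩
          · exact ⟨y, by simp, z, by simp, hyz, rfl⟩
          · exact ⟨u, by rcases hzu with rfl | rfl | rfl <;> simp, v, by simp, huv, h5⟩
        by_cases hzv : v = x ∨ v = y ∨ v = z
        · refine fin {x, y, z, u} (sub4 _ _ _ _ hx hy hz hu) Finset.card_le_four ?_ ?_ ?_
          · exact ⟨x, by simp, y, by simp, hxy, h3⟩
          · exact ⟨y, by simp, z, by simp, hyz, rfl⟩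
          · exact ⟨u, by simp, v, by rcases hzv with rfl | rfl | rfl <;> simp, huv, h5⟩
        push Not at hzu hzv
        rcases hall (c s(y, u)) with h6 | h6 | h6
        · refine fin {y, u, z, v} (sub4 _ _ _ _ hy hu hz hv) Finset.card_le_four ?_ ?_ ?_
          · exact ⟨y, by simp, u, by simp, hzu.2.1.symm, h6⟩
          · exact ⟨y, by simp, z, by simp, hyz, rfl⟩
          · exact ⟨u, by simp, v, by simp, huv, h5⟩
        · refine fin {y, u, x, v} (sub4 _ _ _ _ hy hu hx hv) Finset.card_le_four ?_ ?_ ?_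
          · exact ⟨x, by simp, y, by simp, hxy, h3⟩
          · exact ⟨y, by simp, u, by simp, hzu.2.1.symm, h6⟩
          · exact ⟨u, by simp, v, by simp, huv, h5⟩
        · refine fin {x, y, z, u} (sub4 _ _ _ _ hx hy hz hu) Finset.card_le_four ?_ ?_ ?_
          · exact ⟨x, by simp, y, by simp, hxy, h3⟩
          · exact ⟨y, by simp, z, by simp, hyz, rfl⟩
          · exact ⟨y, by simp, u, by simp, hzu.2.1.symm, h6⟩
      have hcard : S.card - 4 ≤ (S \ U).card := by
        rw [Finset.card_sdiff_of_subset hUS]; omega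
      obtain ⟨i, hi⟩ := ih (S \ U) (by omega)
      obtain ⟨x, hx, y, hy, hxy, hcxy⟩ := hUc i
      exact ⟨i, hi.succ_of_sdiff hx hy (hUS hx) (hUS hy) hxy hcxy⟩


/-- from an injection of `Z'` into the edges of a matching `R`, compatible with colours, one gets
`|Z'|` disjoint bichromatic cherries. -/
lemma hall_cherries {A : Set (Sym2 V)} {S : Finset V} {R : Finset (V × V)} (hR : IsM A S R)
    (Z : Finset V) (hZS : Z ⊆ S) (hZ : ∀ z ∈ Z, z ∉ cov R) (g : V → V × V)
    (hg : ∀ z ∈ Z, g z ∈ R) (hinj : ∀ z ∈ Z, ∀ z' ∈ Z, g z = g z' → z = z')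
    (hcomp : ∀ z ∈ Z, ¬ (s((g z).1, z) ∈ A ∧ s((g z).2, z) ∈ A)) : HasC A S Z.card := by
  classical
  have hswap : ∀ u v : V, s(u, v) = s(v, u) := fun u v => Sym2.eq_swap
  let F : V → V × V × V := fun z =>
    if s((g z).1, z) ∈ A then ((g z).1, (g z).2, z) else ((g z).2, (g z).1, z)
  have hF3 : ∀ z, (F z).2.2 = z := by
    intro z
    simp only [F]
    split_ifs <;> rfl
  have hz1 : ∀ z ∈ Z, ∀ z' ∈ Z, z ≠ (g z').1 := by
    intro z hz z' hz' h
    exact hZ z hz (mem_cov.mpr ⟨g z', hg z' hz', Or.inl h⟩)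
  have hz2 : ∀ z ∈ Z, ∀ z' ∈ Z, z ≠ (g z').2 := by
    intro z hz z' hz' h
    exact hZ z hz (mem_cov.mpr ⟨g z', hg z' hz', Or.inr h⟩)
  refine ⟨Z.image F, ⟨?_, ?_⟩, ?_⟩
  · intro c hc
    obtain ⟨z, hz, rfl⟩ := Finset.mem_image.mp hc
    obtain ⟨h1, h2, h3, h4⟩ := hR.1 _ (hg z hz)
    have hc := hcomp z hz
    simp only [F]
    split_ifs with hA
    · exact ⟨h1, h2, hZS hz, h3, (hz1 z hz z hz).symm, (hz2 z hz z hz).symm, h4,
        fun h => hc ⟨hA, h⟩⟩
    · exact ⟨h2, h1, hZS hz, h3.symm, (hz2 z hz z hz).symm, (hz1 z hz z hz).symm,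
        by rwa [hswap], hA⟩
  · intro c hc d hd hcd
    obtain ⟨z, hz, rfl⟩ := Finset.mem_image.mp hc
    obtain ⟨z', hz', rfl⟩ := Finset.mem_image.mp hd
    have hzz : z ≠ z' := fun h => hcd (by rw [h])
    have hgg : g z ≠ g z' := fun h => hzz (hinj z hz z' hz' h)
    obtain ⟨h1, h2, h3, h4⟩ := hR.2 _ (hg z hz) _ (hg z' hz') hgg
    have a1 := hz1 z hz z' hz'
    have a2 := hz2 z hz z' hz'
    have b1 := (hz1 z' hz' z hz).symm
    have b2 := (hz2 z' hz' z hz).symm
    simp only [F]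
    split_ifs
    · exact ⟨h1, h2, b1, h3, h4, b2, a1, a2, hzz⟩
    · exact ⟨h2, h1, b1, h4, h3, b2, a2, a1, hzz⟩
    · exact ⟨h3, h4, b2, h1, h2, b1, a1, a2, hzz⟩
    · exact ⟨h4, h3, b2, h2, h1, b1, a2, a1, hzz⟩
  · rw [Finset.card_image_of_injOn]
    intro z _ z' _ h
    have : (F z).2.2 = (F z').2.2 := by rw [h]
    rwa [hF3, hF3] at this

/-- the first case of the cherry theorem: a maximum `A`-matching `R` with at least `t` edges
leaves at least `t` vertices uncovered. -/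
lemma case_one {A : Set (Sym2 V)} {S : Finset V} {t : ℕ} {R : Finset (V × V)} (hR : IsM A S R)
    (hmax : ∀ R', IsM A S R' → R'.card ≤ R.card) (hr : t ≤ R.card)
    (hZ : t ≤ (S \ cov R).card) (hB : HasM Aᶜ S t) : HasC A S t := by
  classical
  have hswap : ∀ u v : V, s(u, v) = s(v, u) := fun u v => Sym2.eq_swap
  rcases Nat.eq_zero_or_pos t with rfl | htpos
  · exact hasC_zero A S
  set Z := S \ cov R with hZdef
  have hZS : Z ⊆ S := Finset.sdiff_subset
  have hZc : ∀ z ∈ Z, z ∉ cov R := fun z hz => (Finset.mem_sdiff.mp hz).2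
  have hz1 : ∀ z ∈ Z, ∀ e ∈ R, z ≠ e.1 ∧ z ≠ e.2 := by
    intro z hz e he
    exact ⟨fun h => hZc z hz (mem_cov.mpr ⟨e, he, Or.inl h⟩),
      fun h => hZc z hz (mem_cov.mpr ⟨e, he, Or.inr h⟩)⟩
  -- augmentation
  have aug : ∀ e ∈ R, ∀ z ∈ Z, ∀ z' ∈ Z, z ≠ z' → s(e.1, z) ∈ A → s(e.2, z') ∈ A → False := by
    intro e he z hz z' hz' hzz h1 h2
    obtain ⟨g1, g2, g3, g4⟩ := hR.1 e he
    have hRe : IsM A S (R.erase e) := hR.subset (Finset.erase_subset _ _)
    have hee : ∀ p ∈ R.erase e, e.1 ≠ p.1 ∧ e.1 ≠ p.2 ∧ e.2 ≠ p.1 ∧ e.2 ≠ p.2 := by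
      intro p hp
      exact hR.2 e he p (Finset.mem_of_mem_erase hp) (Finset.ne_of_mem_erase hp).symm
    obtain ⟨i1, i2⟩ := hRe.insert_pair (x := e.2) (y := z') g2 (hZS hz') (hz1 z' hz' e he).2.symm h2
      (fun p hp => ⟨(hee p hp).2.2.1, (hee p hp).2.2.2⟩)
      (fun p hp => hz1 z' hz' p (Finset.mem_of_mem_erase hp))
    obtain ⟨j1, j2⟩ := i1.insert_pair (x := e.1) (y := z) g1 (hZS hz) (hz1 z hz e he).1.symm h1
      (by
        intro p hp
        rcases Finset.mem_insert.mp hp with rfl | hp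
        · exact ⟨g3, (hz1 z' hz' e he).1.symm⟩
        · exact ⟨(hee p hp).1, (hee p hp).2.1⟩)
      (by
        intro p hp
        rcases Finset.mem_insert.mp hp with rfl | hp
        · exact ⟨(hz1 z hz e he).2, hzz⟩
        · exact hz1 z hz p (Finset.mem_of_mem_erase hp))
    have := hmax _ j1
    rw [j2, i2, Finset.card_erase_of_mem he] at this
    have : 0 < R.card := Finset.card_pos.mpr ⟨e, he⟩
    omega
  by_cases hgood : ∃ Z' ⊆ Z, Z'.card = t ∧
      ∀ z ∈ Z', ∃ e ∈ R, ¬ (s(e.1, z) ∈ A ∧ s(e.2, z) ∈ A)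
  · obtain ⟨Z', hZ', hcard, hcomp⟩ := hgood
    -- Hall
    let N : {z // z ∈ Z'} → Finset (V × V) := fun z =>
      R.filter (fun e => ¬ (s(e.1, z.1) ∈ A ∧ s(e.2, z.1) ∈ A))
    have hHall : ∀ s : Finset {z // z ∈ Z'}, s.card ≤ (s.biUnion N).card := by
      intro s
      rcases Nat.lt_or_ge 1 s.card with h1 | h1
      · -- at least two elements: everything is covered
        obtain ⟨z, hz, z', hz', hne⟩ := Finset.one_lt_card.mp h1
        have hsub : R ⊆ s.biUnion N := by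
          intro e he
          rw [Finset.mem_biUnion]
          by_contra hcon
          push Not at hcon
          have d1 : s(e.1, z.1) ∈ A ∧ s(e.2, z.1) ∈ A := by
            by_contra h
            exact hcon z hz (Finset.mem_filter.mpr ⟨he, h⟩)
          have d2 : s(e.1, z'.1) ∈ A ∧ s(e.2, z'.1) ∈ A := by
            by_contra h
            exact hcon z' hz' (Finset.mem_filter.mpr ⟨he, h⟩)
          exact aug e he z.1 (hZ' z.2) z'.1 (hZ' z'.2) (fun h => hne (Subtype.ext h)) d1.1 d2.2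
        calc s.card ≤ Fintype.card {z // z ∈ Z'} := Finset.card_le_univ s
          _ = t := by rw [Fintype.card_coe, hcard]
          _ ≤ R.card := hr
          _ ≤ _ := Finset.card_le_card hsub
      · rcases Nat.eq_zero_or_pos s.card with h0 | h0
        · rw [h0]; exact Nat.zero_le _
        · obtain ⟨z, hz⟩ := Finset.card_pos.mp h0
          obtain ⟨e, he, hce⟩ := hcomp z.1 z.2
          have : e ∈ s.biUnion N := by
            rw [Finset.mem_biUnion]
            exact ⟨z, hz, by simp only [N, Finset.mem_filter]; exact ⟨he, hce⟩⟩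
          have := Finset.card_pos.mpr ⟨e, this⟩
          omega
    obtain ⟨f, hfinj, hf⟩ := (Finset.all_card_le_biUnion_card_iff_exists_injective N).mp hHall
    have hf' : ∀ z : {z // z ∈ Z'}, f z ∈ R ∧ ¬ (s((f z).1, z.1) ∈ A ∧ s((f z).2, z.1) ∈ A) :=
      fun z => Finset.mem_filter.mp (hf z)
    let g : V → V × V := fun z => if h : z ∈ Z' then f ⟨z, h⟩ else (z, z)
    have hg : ∀ z (h : z ∈ Z'), g z = f ⟨z, h⟩ := fun z h => by simp only [g, dif_pos h]
    have := hall_cherries hR Z' (hZ'.trans hZS) (fun z hz => hZc z (hZ' hz)) g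
      (fun z hz => by rw [hg z hz]; exact (hf' ⟨z, hz⟩).1)
      (fun z hz z' hz' h => by
        rw [hg z hz, hg z' hz'] at h
        exact congrArg Subtype.val (hfinj h))
      (fun z hz => by rw [hg z hz]; exact (hf' ⟨z, hz⟩).2)
    rwa [hcard] at this
  · -- the exceptional case
    have haug2 : ∀ z ∈ Z, ∀ z' ∈ Z, z ≠ z' → s(z, z') ∉ A := by
      intro z hz z' hz' hne hA
      obtain ⟨i1, i2⟩ := hR.insert_pair (x := z) (y := z') (hZS hz) (hZS hz') hne hA
        (fun p hp => hz1 z hz p hp) (fun p hp => hz1 z' hz' p hp)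
      have := hmax _ i1
      omega
    let Good := Z.filter (fun z => ∃ e ∈ R, ¬ (s(e.1, z) ∈ A ∧ s(e.2, z) ∈ A))
    have hGoodlt : Good.card < t := by
      by_contra hcon
      obtain ⟨Z', hZ', hc⟩ := Finset.exists_subset_card_eq (s := Good) (n := t) (by omega)
      exact hgood ⟨Z', hZ'.trans (Finset.filter_subset _ _), hc,
        fun z hz => (Finset.mem_filter.mp (hZ' hz)).2⟩
    obtain ⟨z0, hz0, hz0bad⟩ : ∃ z0 ∈ Z, ∀ e ∈ R, s(e.1, z0) ∈ A ∧ s(e.2, z0) ∈ A := by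
      by_contra hcon
      push Not at hcon
      have : Z ⊆ Good := by
        intro z hz
        obtain ⟨e, he, h⟩ := hcon z hz
        exact Finset.mem_filter.mpr ⟨hz, e, he, fun hh => h hh.1 hh.2⟩
      have := Finset.card_le_card this
      omega
    set Y := Z.erase z0 with hY
    have hYZ : Y ⊆ Z := Finset.erase_subset _ _
    have hYblue : ∀ e ∈ R, ∀ y ∈ Y, s(e.1, y) ∉ A ∧ s(e.2, y) ∉ A := by
      intro e he y hy
      have hyz := Finset.mem_erase.mp hy
      refine ⟨fun h => ?_, fun h => ?_⟩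
      · exact aug e he y hyz.2 z0 hz0 hyz.1 h (hz0bad e he).2
      · exact aug e he z0 hz0 y hyz.2 hyz.1.symm (hz0bad e he).1 h
    have hRpos : 0 < R.card := by omega
    obtain ⟨e0, he0⟩ := Finset.card_pos.mp hRpos
    have hYcard : Y.card = t - 1 := by
      have h1 : Y ⊆ Good := by
        intro y hy
        exact Finset.mem_filter.mpr ⟨hYZ hy, e0, he0, fun h => (hYblue e0 he0 y hy).1 h.1⟩
      have h2 := Finset.card_le_card h1
      have h3 : Y.card = Z.card - 1 := Finset.card_erase_of_mem hz0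
      omega
    -- a blue edge avoiding Y
    obtain ⟨B, hBM, hBc⟩ := hB
    obtain ⟨p, hp, hp1, hp2⟩ : ∃ p ∈ B, p.1 ∉ Y ∧ p.2 ∉ Y := by
      by_contra hcon
      push Not at hcon
      have : B.card ≤ Y.card := by
        apply Finset.card_le_card_of_injOn (fun p => if p.1 ∈ Y then p.1 else p.2)
        · intro p hp
          show (if p.1 ∈ Y then p.1 else p.2) ∈ Y
          split_ifs with h
          · exact h
          · exact hcon p hp h
        · intro p hp q hq h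
          by_contra hne
          obtain ⟨h1, h2, h3, h4⟩ := hBM.2 p hp q hq hne
          change (if p.1 ∈ Y then p.1 else p.2) = (if q.1 ∈ Y then q.1 else q.2) at h
          split_ifs at h <;> contradiction
      omega
    obtain ⟨hpS1, hpS2, hpne, hpB⟩ := hBM.1 p hp
    have hcases : ∀ v ∈ S, v ∉ Y → v = z0 ∨ v ∈ cov R := by
      intro v hv hvY
      by_cases hvc : v ∈ cov R
      · exact Or.inr hvc
      · refine Or.inl ?_
        by_contra hne
        exact hvY (Finset.mem_erase.mpr ⟨hne, Finset.mem_sdiff.mpr ⟨hv, hvc⟩⟩)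
    have hcovz0 : ∀ v ∈ cov R, s(v, z0) ∈ A := by
      intro v hv
      obtain ⟨e, he, rfl | rfl⟩ := mem_cov.mp hv
      · exact (hz0bad e he).1
      · exact (hz0bad e he).2
    have hv : p.1 ∈ cov R := by
      rcases hcases p.1 hpS1 hp1 with h | h
      · rcases hcases p.2 hpS2 hp2 with h' | h'
        · exact absurd (h.trans h'.symm) hpne
        · exact absurd (by rw [h, hswap]; exact hcovz0 _ h') hpB
      · exact h
    have hw : p.2 ∈ cov R := by
      rcases hcases p.2 hpS2 hp2 with h | h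
      · exact absurd (by rw [h]; exact hcovz0 _ hv) hpB
      · exact h
    -- partners
    have partner : ∀ v ∈ cov R, ∃ e ∈ R, ∃ v', (v = e.1 ∧ v' = e.2 ∨ v = e.2 ∧ v' = e.1) := by
      intro v hv
      obtain ⟨e, he, h | h⟩ := mem_cov.mp hv
      · exact ⟨e, he, e.2, Or.inl ⟨h, rfl⟩⟩
      · exact ⟨e, he, e.1, Or.inr ⟨h, rfl⟩⟩
    obtain ⟨e1, he1, v', hv'⟩ := partner _ hv
    obtain ⟨e2, he2, w', hw'⟩ := partner _ hw
    obtain ⟨a1, a2, a3, a4⟩ := hR.1 e1 he1
    obtain ⟨b1, b2, b3, b4⟩ := hR.1 e2 he2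
    have hne12 : e1 ≠ e2 := by
      rintro rfl
      rcases hv' with ⟨h1, h2⟩ | ⟨h1, h2⟩ <;> rcases hw' with ⟨h3, h4⟩ | ⟨h3, h4⟩
      · exact hpne (h1.trans h3.symm)
      · exact hpB (by rw [h1, h3]; exact a4)
      · exact hpB (by rw [h1, h3, hswap]; exact a4)
      · exact hpne (h1.trans h3.symm)
    obtain ⟨d1, d2, d3, d4⟩ := hR.2 e1 he1 e2 he2 hne12
    have hv'A : s(v', p.1) ∈ A := by
      rcases hv' with ⟨h1, h2⟩ | ⟨h1, h2⟩
      · rw [h1, h2, hswap]; exact a4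
      · rw [h1, h2]; exact a4
    have hv'S : v' ∈ S := by rcases hv' with ⟨h1, h2⟩ | ⟨h1, h2⟩ <;> rw [h2] <;> assumption
    have hw'S : w' ∈ S := by rcases hw' with ⟨h1, h2⟩ | ⟨h1, h2⟩ <;> rw [h2] <;> assumption
    have hv'cov : v' ∈ cov R := by
      rcases hv' with ⟨h1, h2⟩ | ⟨h1, h2⟩
      · exact mem_cov.mpr ⟨e1, he1, Or.inr h2⟩
      · exact mem_cov.mpr ⟨e1, he1, Or.inl h2⟩
    have hw'cov : w' ∈ cov R := by
      rcases hw' with ⟨h1, h2⟩ | ⟨h1, h2⟩
      · exact mem_cov.mpr ⟨e2, he2, Or.inr h2⟩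
      · exact mem_cov.mpr ⟨e2, he2, Or.inl h2⟩
    have hv'1 : v' ≠ p.1 := by
      rcases hv' with ⟨h1, h2⟩ | ⟨h1, h2⟩ <;> rw [h1, h2]
      · exact a3.symm
      · exact a3
    have hw'2 : w' ≠ p.2 := by
      rcases hw' with ⟨h1, h2⟩ | ⟨h1, h2⟩ <;> rw [h1, h2]
      · exact b3.symm
      · exact b3
    have hv'2 : v' ≠ p.2 := by
      rcases hv' with ⟨h1, h2⟩ | ⟨h1, h2⟩ <;> rcases hw' with ⟨h3, h4⟩ | ⟨h3, h4⟩ <;>
        rw [h2, h3] <;> assumption
    have hw'1 : w' ≠ p.1 := by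
      rcases hv' with ⟨h1, h2⟩ | ⟨h1, h2⟩ <;> rcases hw' with ⟨h3, h4⟩ | ⟨h3, h4⟩ <;>
        rw [h1, h4] <;> exact Ne.symm (by assumption)
    have hw'v' : w' ≠ v' := by
      rcases hv' with ⟨h1, h2⟩ | ⟨h1, h2⟩ <;> rcases hw' with ⟨h3, h4⟩ | ⟨h3, h4⟩ <;>
        rw [h2, h4] <;> exact Ne.symm (by assumption)
    have hz0ne : ∀ v ∈ cov R, z0 ≠ v := by
      rintro v hv rfl
      exact hZc _ hz0 hv
    set S2 := S \ {v', p.1, p.2} with hS2
    have hmemS2 : ∀ u ∈ S, u ≠ v' → u ≠ p.1 → u ≠ p.2 → u ∈ S2 := by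
      intro u hu h1 h2 h3
      rw [hS2, Finset.mem_sdiff]
      refine ⟨hu, ?_⟩
      simp only [Finset.mem_insert, Finset.mem_singleton, not_or]
      exact ⟨h1, h2, h3⟩
    have hR1 : IsM A S2 ((R.erase e1).erase e2) := by
      refine ⟨fun q hq => ?_, (hR.subset ((Finset.erase_subset _ _).trans
        (Finset.erase_subset _ _))).2⟩
      have hq2 := Finset.mem_erase.mp hq
      have hq1 := Finset.mem_erase.mp hq2.2
      obtain ⟨c1, c2, c3, c4⟩ := hR.1 q hq1.2
      obtain ⟨k1, k2, k3, k4⟩ := hR.2 q hq1.2 e1 he1 hq1.1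
      obtain ⟨l1, l2, l3, l4⟩ := hR.2 q hq1.2 e2 he2 hq2.1
      refine ⟨hmemS2 _ c1 ?_ ?_ ?_, hmemS2 _ c2 ?_ ?_ ?_, c3, c4⟩
      · rcases hv' with ⟨h1, h2⟩ | ⟨h1, h2⟩ <;> rw [h2] <;> assumption
      · rcases hv' with ⟨h1, h2⟩ | ⟨h1, h2⟩ <;> rw [h1] <;> assumption
      · rcases hw' with ⟨h1, h2⟩ | ⟨h1, h2⟩ <;> rw [h1] <;> assumption
      · rcases hv' with ⟨h1, h2⟩ | ⟨h1, h2⟩ <;> rw [h2] <;> assumption
      · rcases hv' with ⟨h1, h2⟩ | ⟨h1, h2⟩ <;> rw [h1] <;> assumption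
      · rcases hw' with ⟨h1, h2⟩ | ⟨h1, h2⟩ <;> rw [h1] <;> assumption
    have hcardR1 : ((R.erase e1).erase e2).card = R.card - 1 - 1 := by
      rw [Finset.card_erase_of_mem (Finset.mem_erase.mpr ⟨hne12.symm, he2⟩),
        Finset.card_erase_of_mem he1]
    have hR2card : 2 ≤ R.card := Finset.one_lt_card.mpr ⟨e1, he1, e2, he2, hne12⟩
    obtain ⟨m1, m2⟩ := hR1.insert_pair (x := w') (y := z0)
      (hmemS2 _ hw'S hw'v' hw'1 hw'2)
      (hmemS2 _ (hZS hz0) (hz0ne _ hv'cov) (hz0ne _ hv) (hz0ne _ hw))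
      (hz0ne _ hw'cov).symm (hcovz0 _ hw'cov)
      (by
        intro q hq
        have hq2 := Finset.mem_erase.mp hq
        have hq1 := Finset.mem_erase.mp hq2.2
        obtain ⟨l1, l2, l3, l4⟩ := hR.2 q hq1.2 e2 he2 hq2.1
        rcases hw' with ⟨h1, h2⟩ | ⟨h1, h2⟩ <;> rw [h2] <;>
          exact ⟨Ne.symm (by assumption), Ne.symm (by assumption)⟩)
      (by
        intro q hq
        have hq2 := Finset.mem_erase.mp hq
        have hq1 := Finset.mem_erase.mp hq2.2
        exact hz1 z0 hz0 q hq1.2)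
    set R2 := insert (w', z0) ((R.erase e1).erase e2) with hR2
    have hYle : Fintype.card {y // y ∈ Y} ≤ Fintype.card {e // e ∈ R2} := by
      rw [Fintype.card_coe, Fintype.card_coe, hYcard, m2, hcardR1]
      omega
    obtain ⟨φ⟩ := Function.Embedding.nonempty_of_card_le hYle
    let g : V → V × V := fun z => if h : z ∈ Y then (φ ⟨z, h⟩).1 else (z, z)
    have hg : ∀ z (h : z ∈ Y), g z = (φ ⟨z, h⟩).1 := fun z h => by simp only [g, dif_pos h]
    have hfst : ∀ e ∈ R2, e.1 ∈ cov R := by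
      intro e he
      rcases Finset.mem_insert.mp he with rfl | he
      · exact hw'cov
      · have hq2 := Finset.mem_erase.mp he
        have hq1 := Finset.mem_erase.mp hq2.2
        exact mem_cov.mpr ⟨e, hq1.2, Or.inl rfl⟩
    have hsnd : ∀ e ∈ R2, e.2 = z0 ∨ e.2 ∈ cov R := by
      intro e he
      rcases Finset.mem_insert.mp he with rfl | he
      · exact Or.inl rfl
      · have hq2 := Finset.mem_erase.mp he
        have hq1 := Finset.mem_erase.mp hq2.2
        exact Or.inr (mem_cov.mpr ⟨e, hq1.2, Or.inr rfl⟩)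
    have hYcov : ∀ y ∈ Y, ∀ v ∈ cov R, y ≠ v := by
      rintro y hy v hv rfl
      exact hZc _ (hYZ hy) hv
    have hC := hall_cherries m1 Y
      (by
        intro y hy
        exact hmemS2 y (hZS (hYZ hy)) (hYcov y hy _ hv'cov) (hYcov y hy _ hv) (hYcov y hy _ hw))
      (by
        intro y hy hyc
        obtain ⟨e, he, h | h⟩ := mem_cov.mp hyc
        · exact hYcov y hy _ (hfst e he) h
        · rcases hsnd e he with h' | h'
          · exact (Finset.mem_erase.mp hy).1 (h.trans h')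
          · exact hYcov y hy _ h' h) g
      (fun z hz => by rw [hg z hz]; exact (φ ⟨z, hz⟩).2)
      (fun z hz z' hz' h => by
        rw [hg z hz, hg z' hz'] at h
        exact congrArg Subtype.val (φ.injective (Subtype.ext h)))
      (fun z hz => by
        rw [hg z hz]
        rintro ⟨h1, -⟩
        obtain ⟨e, he, h | h⟩ := mem_cov.mp (hfst _ (φ ⟨z, hz⟩).2)
        · rw [h] at h1; exact (hYblue e he z hz).1 h1
        · rw [h] at h1; exact (hYblue e he z hz).2 h1)
    rw [hYcard] at hC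
    have := hC.succ_of_sdiff hv'S hpS1 hpS2 hv'1 hv'2 hpne hv'A hpB
    rwa [show t - 1 + 1 = t by omega] at this

/-- **Cherry theorem.** If a 2-coloured complete graph on at least `3 t` vertices has a matching of
size `t` in each colour then it has `t` disjoint bichromatic cherries. -/
theorem cherry_theorem (t : ℕ) : ∀ (A : Set (Sym2 V)) (S : Finset V), 3 * t ≤ S.card →
    HasM A S t → HasM Aᶜ S t → HasC A S t := by
  classical
  have hswap : ∀ u v : V, s(u, v) = s(v, u) := fun u v => Sym2.eq_swap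
  induction t with
  | zero => intro A S _ _ _; exact hasC_zero A S
  | succ t ih =>
    intro A S hS hA hB
    obtain ⟨R, hR, hRmax⟩ := exists_max A S
    obtain ⟨B, hBM, hBmax⟩ := exists_max Aᶜ S
    have hr : t + 1 ≤ R.card := by obtain ⟨R', h1, h2⟩ := hA; rw [← h2]; exact hRmax _ h1
    have hb : t + 1 ≤ B.card := by obtain ⟨R', h1, h2⟩ := hB; rw [← h2]; exact hBmax _ h1
    have hcR := hR.card_cov
    have hcB := hBM.card_cov
    have hsR : (S \ cov R).card = S.card - (cov R).card := Finset.card_sdiff_of_subset hR.cov_subset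
    have hsB : (S \ cov B).card = S.card - (cov B).card := Finset.card_sdiff_of_subset hBM.cov_subset
    have hleR := Finset.card_le_card hR.cov_subset
    have hleB := Finset.card_le_card hBM.cov_subset
    by_cases h1 : t + 1 ≤ (S \ cov R).card
    · exact case_one hR hRmax hr h1 hB
    by_cases h2 : t + 1 ≤ (S \ cov B).card
    · obtain ⟨C, hC, hCc⟩ := case_one hBM hBmax hb h2 (by rwa [compl_compl])
      refine ⟨C.image (fun c => (c.2.2, c.2.1, c.1)), ⟨?_, ?_⟩, ?_⟩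
      · intro c hc
        obtain ⟨d, hd, rfl⟩ := Finset.mem_image.mp hc
        obtain ⟨a1, a2, a3, a4, a5, a6, a7, a8⟩ := hC.1 d hd
        rw [Set.notMem_compl_iff] at a8
        exact ⟨a3, a2, a1, a6.symm, a5.symm, a4.symm, by rwa [hswap], by
          show s(d.2.1, d.1) ∉ A
          rw [hswap]; exact a7⟩
      · intro c hc c' hc' hne
        obtain ⟨d, hd, rfl⟩ := Finset.mem_image.mp hc
        obtain ⟨d', hd', rfl⟩ := Finset.mem_image.mp hc'
        have hdd : d ≠ d' := fun h => hne (by rw [h])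
        obtain ⟨a1, a2, a3, a4, a5, a6, a7, a8, a9⟩ := hC.2 d hd d' hd' hdd
        exact ⟨a9, a8, a7, a6, a5, a4, a3, a2, a1⟩
      · rw [Finset.card_image_of_injective, hCc]
        rintro ⟨a, b, c⟩ ⟨a', b', c'⟩ h
        simp only [Prod.mk.injEq] at h ⊢
        exact ⟨h.2.2, h.2.1, h.1⟩
    · -- both matchings have at least `t + 2` edges
      have hr2 : t + 2 ≤ R.card := by omega
      have hb2 : t + 2 ≤ B.card := by omega
      obtain ⟨y, hyR, hyB⟩ : ∃ y, y ∈ cov R ∧ y ∈ cov B := by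
        by_contra hcon
        push Not at hcon
        have hdisj : Disjoint (cov R) (cov B) := Finset.disjoint_left.mpr hcon
        have := Finset.card_union_of_disjoint hdisj
        have h3 := Finset.card_le_card (Finset.union_subset hR.cov_subset hBM.cov_subset)
        omega
      obtain ⟨e, he, x, hx⟩ : ∃ e ∈ R, ∃ x, (y = e.1 ∧ x = e.2 ∨ y = e.2 ∧ x = e.1) := by
        obtain ⟨e, he, h | h⟩ := mem_cov.mp hyR
        · exact ⟨e, he, e.2, Or.inl ⟨h, rfl⟩⟩
        · exact ⟨e, he, e.1, Or.inr ⟨h, rfl⟩⟩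
      obtain ⟨f, hf, z, hz⟩ : ∃ e ∈ B, ∃ x, (y = e.1 ∧ x = e.2 ∨ y = e.2 ∧ x = e.1) := by
        obtain ⟨e, he, h | h⟩ := mem_cov.mp hyB
        · exact ⟨e, he, e.2, Or.inl ⟨h, rfl⟩⟩
        · exact ⟨e, he, e.1, Or.inr ⟨h, rfl⟩⟩
      obtain ⟨a1, a2, a3, a4⟩ := hR.1 e he
      obtain ⟨b1, b2, b3, b4⟩ := hBM.1 f hf
      have hyS : y ∈ S := hR.cov_subset hyR
      have hxS : x ∈ S := by rcases hx with ⟨h1, h2⟩ | ⟨h1, h2⟩ <;> rw [h2] <;> assumption
      have hzS : z ∈ S := by rcases hz with ⟨h1, h2⟩ | ⟨h1, h2⟩ <;> rw [h2] <;> assumption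
      have hxy : x ≠ y := by
        rcases hx with ⟨h1, h2⟩ | ⟨h1, h2⟩ <;> rw [h1, h2]
        · exact a3.symm
        · exact a3
      have hyz : y ≠ z := by
        rcases hz with ⟨h1, h2⟩ | ⟨h1, h2⟩ <;> rw [h1, h2]
        · exact b3
        · exact b3.symm
      have hxyA : s(x, y) ∈ A := by
        rcases hx with ⟨h1, h2⟩ | ⟨h1, h2⟩ <;> rw [h1, h2]
        · rw [hswap]; exact a4
        · exact a4
      have hyzB : s(y, z) ∉ A := by
        rcases hz with ⟨h1, h2⟩ | ⟨h1, h2⟩ <;> rw [h1, h2]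
        · exact b4
        · rw [hswap]; exact b4
      have hxz : x ≠ z := by
        rintro rfl
        exact hyzB (by rwa [hswap])
      have hcard : (S \ {x, y, z}).card = S.card - 3 := by
        rw [Finset.card_sdiff_of_subset (by
          intro a ha; simp at ha; rcases ha with rfl | rfl | rfl <;> assumption)]
        rw [Finset.card_eq_three.mpr ⟨x, y, z, hxy, hxz, hyz, rfl⟩]
      -- general removal statement
      have removal : ∀ (A' : Set (Sym2 V)) (M : Finset (V × V)), IsM A' S M → ∀ g ∈ M,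
          ∀ u u' w : V, (u = g.1 ∧ u' = g.2 ∨ u = g.2 ∧ u' = g.1) →
          t + 2 ≤ M.card → ∀ T : Finset V, T = {u, u', w} → HasM A' (S \ T) t := by
        intro A' M hM g hg u u' w hu hMc T hT
        let bad := M.filter (fun p => w = p.1 ∨ w = p.2)
        have hbad : bad.card ≤ 1 := by
          rw [Finset.card_le_one]
          intro p hp q hq
          by_contra hne
          obtain ⟨hp1, hp2⟩ := Finset.mem_filter.mp hp
          obtain ⟨hq1, hq2⟩ := Finset.mem_filter.mp hq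
          obtain ⟨c1, c2, c3, c4⟩ := hM.2 p hp1 q hq1 hne
          rcases hp2 with rfl | rfl <;> rcases hq2 with h | h <;> contradiction
        let M' := (M.erase g) \ bad
        have hM'sub : M' ⊆ M := Finset.sdiff_subset.trans (Finset.erase_subset _ _)
        have hM'c : t ≤ M'.card := by
          have h1 : (M.erase g).card - bad.card ≤ M'.card := Finset.le_card_sdiff _ _
          rw [Finset.card_erase_of_mem hg] at h1
          omega
        have hM'M : IsM A' (S \ T) M' := by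
          refine ⟨fun p hp => ?_, (hM.subset hM'sub).2⟩
          obtain ⟨hp1, hp2⟩ := Finset.mem_sdiff.mp hp
          obtain ⟨hp3, hp4⟩ := Finset.mem_erase.mp hp1
          obtain ⟨c1, c2, c3, c4⟩ := hM.1 p hp4
          obtain ⟨k1, k2, k3, k4⟩ := hM.2 p hp4 g hg hp3
          have hw1 : p.1 ≠ w := fun h => hp2 (Finset.mem_filter.mpr ⟨hp4, Or.inl h.symm⟩)
          have hw2 : p.2 ≠ w := fun h => hp2 (Finset.mem_filter.mpr ⟨hp4, Or.inr h.symm⟩)
          refine ⟨?_, ?_, c3, c4⟩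
          · rw [Finset.mem_sdiff, hT]
            refine ⟨c1, ?_⟩
            simp only [Finset.mem_insert, Finset.mem_singleton, not_or]
            rcases hu with ⟨h1, h2⟩ | ⟨h1, h2⟩ <;> rw [h1, h2]
            · exact ⟨k1, k2, hw1⟩
            · exact ⟨k2, k1, hw1⟩
          · rw [Finset.mem_sdiff, hT]
            refine ⟨c2, ?_⟩
            simp only [Finset.mem_insert, Finset.mem_singleton, not_or]
            rcases hu with ⟨h1, h2⟩ | ⟨h1, h2⟩ <;> rw [h1, h2]
            · exact ⟨k3, k4, hw2⟩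
            · exact ⟨k4, k3, hw2⟩
        exact HasM.le ⟨M', hM'M, rfl⟩ hM'c
      have r1 := removal A R hR e he y x z hx hr2 {x, y, z} (by
        ext a; simp only [Finset.mem_insert, Finset.mem_singleton]; tauto)
      have r2 := removal Aᶜ B hBM f hf y z x hz hb2 {x, y, z} (by
        ext a; simp only [Finset.mem_insert, Finset.mem_singleton]; tauto)
      exact (ih A (S \ {x, y, z}) (by omega) r1 r2).succ_of_sdiff hxS hyS hzS hxy hxz hyz hxyA hyzB

end Pool.Agent.helper17.Cherry
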