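import Mathlib

set_option autoImplicit false

/-!
Cutting a tree at an edge.
-/

namespace Pool.Agent.helper17.TreeCut

open SimpleGraph

variable {W : Type*}

/-- the component of `x` after deleting the edge `xy` -/
def comp (T : SimpleGraph W) (x y : W) : Set W := {w | (T.deleteEdges {s(x, y)}).Reachable x w}

lemma mem_comp {T : SimpleGraph W} {x y w : W} :
    w ∈ comp T x y ↔ ∃ p : T.Walk x w, s(x, y) ∉ p.edges :=
  reachable_deleteEdges_iff_exists_walk

lemma self_mem_comp (T : SimpleGraph W) (x y : W) : x ∈ comp T x y := Reachable.refl x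

lemma notMem_comp {T : SimpleGraph W} (hT : T.IsAcyclic) {x y : W} (h : T.Adj x y) :
    y ∉ comp T x y := by
  have := isAcyclic_iff_forall_adj_isBridge.mp hT h
  exact this

lemma disjoint_comp {T : SimpleGraph W} (hT : T.IsAcyclic) {x y : W} (h : T.Adj x y) :
    ∀ w, w ∈ comp T x y → w ∉ comp T y x := by
  intro w h1 h2
  have h2' : (T.deleteEdges {s(x, y)}).Reachable y w := by
    have : s(x, y) = s(y, x) := Sym2.eq_swap
    rw [this]; exact h2
  exact notMem_comp hT h (h1.trans h2'.symm)

/-- moving away from `y` through `x` gives a strictly smaller part than ... -/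
lemma comp_ssubset {T : SimpleGraph W} (hT : T.IsAcyclic) {x y a : W} (hxy : T.Adj x y)
    (hya : T.Adj y a) (hne : a ≠ x) : comp T a y ⊂ comp T y x := by
  classical
  refine Set.ssubset_iff_subset_ne.mpr ⟨?_, ?_⟩
  · intro w hw
    rw [mem_comp] at hw
    obtain ⟨p, hp⟩ := hw
    have hy : y ∉ p.support := by
      intro hy
      apply notMem_comp hT hya.symm
      rw [mem_comp]
      exact ⟨p.takeUntil y hy, fun h => hp (Walk.edges_takeUntil_subset_edges p hy h)⟩
    rw [mem_comp]
    refine ⟨Walk.cons hya p, ?_⟩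
    rw [Walk.edges_cons, List.mem_cons]
    rintro (h | h)
    · rw [Sym2.eq_iff] at h
      rcases h with ⟨-, h⟩ | ⟨h, h'⟩
      · exact hne h.symm
      · exact hxy.ne h'
    · exact hy (Walk.fst_mem_support_of_mem_edges p h)
  · intro h
    have : y ∈ comp T a y := by rw [h]; exact self_mem_comp T y x
    exact notMem_comp hT hya.symm this

/-- every vertex other than `y` lies beyond one of the neighbours of `y` -/
lemma exists_neighbor {T : SimpleGraph W} (hT : T.IsTree) {y w : W} (hne : w ≠ y) :
    ∃ a, T.Adj y a ∧ w ∈ comp T a y := by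
  classical
  obtain ⟨p, hp⟩ := hT.1.exists_isPath y w
  cases p with
  | nil => exact absurd rfl hne
  | cons h q =>
    rw [Walk.cons_isPath_iff] at hp
    refine ⟨_, h, ?_⟩
    rw [mem_comp]
    exact ⟨q, fun hh => hp.2 (Walk.snd_mem_support_of_mem_edges q hh)⟩

lemma comp_union {T : SimpleGraph W} (hT : T.IsTree) {x y : W} (hxy : T.Adj x y) (w : W) :
    w ∈ comp T x y ∨ w ∈ comp T y x := by
  by_cases hw : w = y
  · right; rw [hw]; exact self_mem_comp T y x
  · obtain ⟨a, hya, ha⟩ := exists_neighbor hT hw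
    by_cases hax : a = x
    · left; rw [← hax]; exact ha
    · right; exact (comp_ssubset hT.2 hxy hya hax).1 ha

/-- the central vertex lemma: an antisymmetric notion of a big side. -/
lemma exists_center [Finite W] {T : SimpleGraph W} (hT : T.IsTree) (big : Set W → Prop)
    (hex : ∃ x y, T.Adj x y ∧ big (comp T y x)) :
    ∃ x y, T.Adj x y ∧ big (comp T y x) ∧
      ∀ a, T.Adj y a → a ≠ x → ¬ big (comp T a y) := by
  classical
  let P : ℕ → Prop := fun k => ∃ x y, T.Adj x y ∧ big (comp T y x) ∧ (comp T y x).ncard = k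
  have hP : ∃ k, P k := by
    obtain ⟨x, y, h1, h2⟩ := hex
    exact ⟨_, x, y, h1, h2, rfl⟩
  obtain ⟨x, y, h1, h2, h3⟩ := Nat.find_spec hP
  refine ⟨x, y, h1, h2, fun a hya hax hbig => ?_⟩
  have hlt : (comp T a y).ncard < (comp T y x).ncard :=
    Set.ncard_lt_ncard (comp_ssubset hT.2 h1 hya hax) (Set.toFinite _)
  rw [h3] at hlt
  exact Nat.find_min hP hlt ⟨y, a, hya, hbig, rfl⟩

end Pool.Agent.helper17.TreeCut
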