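import Mathlib

set_option autoImplicit false

/-!
Counting lemmas for the random displacement argument.
-/

namespace Pool.Agent.helper17.Worm

open Finset

/-- AM-GM for a finite set -/
lemma prod_le_pow_avg {ι : Type*} (s : Finset ι) (x : ι → ℝ) (hx : ∀ i ∈ s, 0 ≤ x i)
    (hs : s.Nonempty) : ∏ i ∈ s, x i ≤ ((∑ i ∈ s, x i) / s.card) ^ s.card := by
  have hc : (0 : ℝ) < s.card := by exact_mod_cast Finset.card_pos.mpr hs
  have h := Real.geom_mean_le_arith_mean_weighted s (fun _ => (1 : ℝ) / s.card) x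
    (fun i _ => by positivity)
    (by rw [Finset.sum_const, nsmul_eq_mul]; field_simp) hx
  have h2 : ∏ i ∈ s, x i = (∏ i ∈ s, x i ^ ((1 : ℝ) / s.card)) ^ s.card := by
    rw [← Finset.prod_pow]
    refine Finset.prod_congr rfl fun i hi => ?_
    rw [← Real.rpow_natCast, ← Real.rpow_mul (hx i hi), one_div, inv_mul_cancel₀ hc.ne',
      Real.rpow_one]
  rw [h2]
  refine pow_le_pow_left₀ (Finset.prod_nonneg fun i hi => Real.rpow_nonneg (hx i hi) _) ?_ _
  refine h.trans (le_of_eq ?_)
  rw [Finset.sum_div]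
  exact Finset.sum_congr rfl fun i _ => by ring

/-- counting choices all of whose coordinates satisfy a property -/
lemma count_choices {N q k : ℕ} (hk : 1 ≤ k) (P : Fin N → Fin q → Prop)
    [∀ l c, Decidable (P l c)] [DecidablePred fun S : Fin N → Fin q => ∀ l, P l (S l)]
    (V : Fin N → ℝ) (hV : ∀ l, ((univ.filter (fun c => P l c)).card : ℝ) ≤ V l)
    (B : Finset (Fin N)) (hB : B.card = k) {r : ℝ} (hsum : ∑ l ∈ B, V l ≤ k * q * r) :
    ((univ.filter (fun S : Fin N → Fin q => ∀ l, P l (S l))).card : ℝ) ≤ q ^ N * r ^ k := by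
  classical
  rcases Nat.eq_zero_or_pos q with rfl | hq
  · have hBne : B.Nonempty := Finset.card_pos.mp (by omega)
    obtain ⟨l, -⟩ := hBne
    have : (univ.filter (fun S : Fin N → Fin 0 => ∀ l, P l (S l))) = ∅ := by
      ext S
      exact Fin.elim0 (S l)
    rw [this]
    have hN : N ≠ 0 := by
      rintro rfl
      exact Fin.elim0 l
    simp [hN]
  have hq' : (0 : ℝ) < q := by exact_mod_cast hq
  have hset : univ.filter (fun S : Fin N → Fin q => ∀ l, P l (S l)) =
      Fintype.piFinset (fun l => univ.filter (fun c => P l c)) := by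
    ext S
    simp [Fintype.mem_piFinset]
  rw [hset, Fintype.card_piFinset, Nat.cast_prod]
  have hfac : ∏ l, ((univ.filter (fun c => P l c)).card : ℝ) =
      q ^ N * ∏ l, ((univ.filter (fun c => P l c)).card : ℝ) / q := by
    rw [Finset.prod_div_distrib, Finset.prod_const, Finset.card_univ, Fintype.card_fin]
    field_simp
  rw [hfac]
  refine mul_le_mul_of_nonneg_left ?_ (by positivity)
  have hle1 : ∀ l, ((univ.filter (fun c => P l c)).card : ℝ) / q ≤ 1 := by
    intro l
    rw [div_le_one hq']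
    have : (univ.filter (fun c => P l c)).card ≤ q := by
      have := Finset.card_filter_le (univ : Finset (Fin q)) (fun c => P l c)
      simpa using this
    exact_mod_cast this
  have h0 : ∀ l, 0 ≤ ((univ.filter (fun c => P l c)).card : ℝ) / q := fun l => by positivity
  have hBne : B.Nonempty := Finset.card_pos.mp (by omega)
  calc ∏ l, ((univ.filter (fun c => P l c)).card : ℝ) / q
      ≤ ∏ l ∈ B, ((univ.filter (fun c => P l c)).card : ℝ) / q := by
        rw [← Finset.prod_sdiff (Finset.subset_univ B)]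
        have h1 : ∏ l ∈ univ \ B, ((univ.filter (fun c => P l c)).card : ℝ) / q ≤ 1 :=
          Finset.prod_le_one (fun l _ => h0 l) (fun l _ => hle1 l)
        have h2 : 0 ≤ ∏ l ∈ B, ((univ.filter (fun c => P l c)).card : ℝ) / q :=
          Finset.prod_nonneg fun l _ => h0 l
        calc _ ≤ 1 * ∏ l ∈ B, ((univ.filter (fun c => P l c)).card : ℝ) / q :=
              mul_le_mul_of_nonneg_right h1 h2
          _ = _ := one_mul _
    _ ≤ ((∑ l ∈ B, ((univ.filter (fun c => P l c)).card : ℝ) / q) / B.card) ^ B.card :=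
        prod_le_pow_avg B _ (fun l _ => h0 l) hBne
    _ ≤ r ^ k := by
        rw [hB]
        have hk' : (0 : ℝ) < k := by exact_mod_cast hk
        refine pow_le_pow_left₀ (div_nonneg (Finset.sum_nonneg fun l _ => h0 l) hk'.le) ?_ _
        rw [div_le_iff₀ hk', ← Finset.sum_div, div_le_iff₀ hq']
        calc ∑ l ∈ B, ((univ.filter (fun c => P l c)).card : ℝ) ≤ ∑ l ∈ B, V l :=
              Finset.sum_le_sum fun l _ => hV l
          _ ≤ k * q * r := hsum
          _ = r * k * q := by ring

lemma sum_abs_range (q : ℕ) :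
    ∑ c ∈ range q, ∑ c' ∈ range q, |(c : ℝ) - c'| = (q * (q ^ 2 - 1) : ℝ) / 3 := by
  induction q with
  | zero => simp
  | succ q ih =>
    have h1 : ∑ c ∈ range q, |(c : ℝ) - q| = (q * (q + 1) : ℝ) / 2 := by
      have : ∀ n : ℕ, ∑ c ∈ range n, ((q : ℝ) - c) = n * q - (n * (n - 1) : ℝ) / 2 := by
        intro n
        induction n with
        | zero => simp
        | succ n ih => rw [Finset.sum_range_succ, ih]; push_cast; ring
      rw [Finset.sum_congr rfl (g := fun c : ℕ => (q : ℝ) - c), this q]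
      · ring
      · intro c hc
        have : (c : ℝ) ≤ q := by exact_mod_cast (Finset.mem_range.mp hc).le
        rw [abs_sub_comm, abs_of_nonneg (by linarith)]
    have h2 : ∑ c ∈ range q, |(q : ℝ) - c| = (q * (q + 1) : ℝ) / 2 := by
      rw [← h1]
      exact Finset.sum_congr rfl fun c _ => abs_sub_comm _ _
    rw [Finset.sum_range_succ]
    have h3 : ∑ c ∈ range q, ∑ c' ∈ range (q + 1), |(c : ℝ) - c'| =
        ∑ c ∈ range q, ∑ c' ∈ range q, |(c : ℝ) - c'| + ∑ c ∈ range q, |(c : ℝ) - q| := by
      rw [← Finset.sum_add_distrib]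
      exact Finset.sum_congr rfl fun c _ => by rw [Finset.sum_range_succ]
    rw [h3, ih, h1, Finset.sum_range_succ, h2]
    push_cast
    rw [sub_self, abs_zero]
    ring

lemma sum_abs_fin (q : ℕ) :
    ∑ c : Fin q, ∑ c' : Fin q, |(c.val : ℝ) - c'.val| ≤ (q : ℝ) ^ 3 / 3 := by
  have h1 : ∑ c : Fin q, ∑ c' : Fin q, |(c.val : ℝ) - c'.val| =
      ∑ c ∈ range q, ∑ c' ∈ range q, |(c : ℝ) - c'| := by
    rw [← Fin.sum_univ_eq_sum_range (fun c => ∑ c' ∈ range q, |(c : ℝ) - c'|) q]
    refine Finset.sum_congr rfl fun c _ => ?_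
    rw [← Fin.sum_univ_eq_sum_range (fun c' => |((c.val : ℕ) : ℝ) - c'|) q]
  rw [h1, sum_abs_range]
  have : (0 : ℝ) ≤ q := Nat.cast_nonneg q
  nlinarith

/-- number of functions with two prescribed values -/
lemma card_two_values {N q : ℕ} {i j : Fin N} (hij : i ≠ j) (c c' : Fin q) :
    ((univ.filter (fun S : Fin N → Fin q => S i = c ∧ S j = c')).card : ℝ) * q ^ 2 =
      (q : ℝ) ^ N := by
  classical
  have hset : univ.filter (fun S : Fin N → Fin q => S i = c ∧ S j = c') =
      Fintype.piFinset (fun l => if l = i then {c} else if l = j then {c'} else univ) := by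
    ext S
    simp only [Finset.mem_filter, Finset.mem_univ, true_and, Fintype.mem_piFinset]
    constructor
    · rintro ⟨h1, h2⟩ l
      split_ifs with h3 h4
      · rw [h3]; simp [h1]
      · rw [h4]; simp [h2]
      · simp
    · intro h
      have h1 := h i
      have h2 := h j
      rw [if_pos rfl] at h1
      rw [if_neg hij.symm, if_pos rfl] at h2
      exact ⟨by simpa using h1, by simpa using h2⟩
  rw [hset, Fintype.card_piFinset]
  have h1 : ∏ l : Fin N, (if l = i then ({c} : Finset (Fin q)) else if l = j then {c'} else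
      univ).card = q ^ (N - 2) := by
    have h2 : ∀ l : Fin N, (if l = i then ({c} : Finset (Fin q)) else if l = j then {c'} else
      univ).card = if l ∈ (univ \ {i, j} : Finset (Fin N)) then q else 1 := by
      intro l
      simp only [Finset.mem_sdiff, Finset.mem_univ, true_and, Finset.mem_insert,
        Finset.mem_singleton, not_or]
      by_cases h3 : l = i
      · simp [h3]
      · by_cases h4 : l = j
        · simp [h4, hij.symm]
        · simp [h3, h4]
    rw [Finset.prod_congr rfl fun l _ => h2 l, Finset.prod_ite_mem, Finset.univ_inter,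
      Finset.prod_const, Finset.card_sdiff_of_subset (Finset.subset_univ _), Finset.card_univ,
      Fintype.card_fin, Finset.card_pair hij]
  rw [h1]
  have hN : 2 ≤ N := by
    have h3 := Finset.card_le_card (Finset.subset_univ ({i, j} : Finset (Fin N)))
    rw [Finset.card_pair hij, Finset.card_univ, Fintype.card_fin] at h3
    exact h3
  push_cast
  rw [← pow_add]
  congr 1
  omega

lemma sum_two_values {N q : ℕ} {i j : Fin N} (hij : i ≠ j) (f : Fin q → Fin q → ℝ) :
    (∑ S : Fin N → Fin q, f (S i) (S j)) * q ^ 2 = (q : ℝ) ^ N * ∑ c, ∑ c', f c c' := by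
  classical
  have h1 : ∑ S : Fin N → Fin q, f (S i) (S j) =
      ∑ p : Fin q × Fin q, ∑ S ∈ univ.filter (fun S : Fin N → Fin q => (S i, S j) = p),
        f (S i) (S j) :=
    (Finset.sum_fiberwise (s := (univ : Finset (Fin N → Fin q))) (g := fun S => (S i, S j))
      (f := fun S => f (S i) (S j))).symm
  rw [h1, Fintype.sum_prod_type, Finset.sum_mul, Finset.mul_sum]
  refine Finset.sum_congr rfl fun c _ => ?_
  rw [Finset.sum_mul, Finset.mul_sum]
  refine Finset.sum_congr rfl fun c' _ => ?_
  have h2 : ∑ S ∈ univ.filter (fun S : Fin N → Fin q => (S i, S j) = (c, c')), f (S i) (S j) =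
      (univ.filter (fun S : Fin N → Fin q => S i = c ∧ S j = c')).card * f c c' := by
    rw [Finset.sum_congr rfl (g := fun _ => f c c')]
    · rw [Finset.sum_const, nsmul_eq_mul]
      congr 2
      congr 1
      ext S
      simp
    · intro S hS
      have := (Finset.mem_filter.mp hS).2
      rw [Prod.mk.injEq] at this
      rw [this.1, this.2]
  rw [h2, mul_right_comm, card_two_values hij]

/-- total jump of a choice -/
noncomputable def jump {N q : ℕ} (S : Fin N → Fin q) : ℝ :=
  ∑ l ∈ range (N - 1), if h : l + 1 < N then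
    |((S ⟨l + 1, h⟩).val : ℝ) - (S ⟨l, by omega⟩).val| else 0

lemma jump_nonneg {N q : ℕ} (S : Fin N → Fin q) : 0 ≤ jump S := by
  unfold jump
  refine Finset.sum_nonneg fun l _ => ?_
  split_ifs
  · exact abs_nonneg _
  · exact le_rfl

/-- the average total jump is at most `(N - 1) q / 3` -/
lemma sum_jump {N q : ℕ} (hq : 1 ≤ q) :
    ∑ S : Fin N → Fin q, jump S ≤ (q : ℝ) ^ N * ((N - 1 : ℕ) * q / 3) := by
  have hq' : (0 : ℝ) < q := by exact_mod_cast hq
  unfold jump
  rw [Finset.sum_comm]
  have h1 : ∀ l ∈ range (N - 1), ∑ S : Fin N → Fin q, (if h : l + 1 < N then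
      |((S ⟨l + 1, h⟩).val : ℝ) - (S ⟨l, by omega⟩).val| else 0) ≤ (q : ℝ) ^ N * (q / 3) := by
    intro l hl
    have hl' : l + 1 < N := by
      have := Finset.mem_range.mp hl
      omega
    simp only [hl', dif_pos]
    have h2 := sum_two_values (N := N) (q := q) (i := ⟨l + 1, hl'⟩) (j := ⟨l, by omega⟩)
      (by simp) (fun c c' => |(c.val : ℝ) - c'.val|)
    have h3 := sum_abs_fin q
    have h4 : (0 : ℝ) < (q : ℝ) ^ 2 := by positivity
    rw [← mul_le_mul_iff_left₀ h4, h2]
    calc (q : ℝ) ^ N * ∑ c : Fin q, ∑ c' : Fin q, |(c.val : ℝ) - c'.val|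
        ≤ (q : ℝ) ^ N * ((q : ℝ) ^ 3 / 3) := by
          refine mul_le_mul_of_nonneg_left h3 (by positivity)
      _ = (q : ℝ) ^ N * (q / 3) * q ^ 2 := by ring
  calc _ ≤ ∑ _l ∈ range (N - 1), (q : ℝ) ^ N * (q / 3) := Finset.sum_le_sum h1
    _ = _ := by
      rw [Finset.sum_const, Finset.card_range, nsmul_eq_mul]
      ring

end Pool.Agent.helper17.Worm
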