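import Mathlib

set_option autoImplicit false

/-!
Rectangles in the complex plane and how much of them a set occupies.
-/

namespace Pool.Agent.helper17.Worm

open MeasureTheory Set

/-- the half-open rectangle with lower left corner `a + b i`, width `w` and height `h` -/
def rc (a w b h : ℝ) : Set ℂ := Ico a (a + w) ×ℂ Ico b (b + h)

lemma mem_rc {a w b h : ℝ} {z : ℂ} :
    z ∈ rc a w b h ↔ (a ≤ z.re ∧ z.re < a + w) ∧ (b ≤ z.im ∧ z.im < b + h) := by
  simp [rc, Complex.mem_reProdIm]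

lemma measurableSet_rc (a w b h : ℝ) : MeasurableSet (rc a w b h) :=
  (measurableSet_Ico.preimage Complex.measurable_re).inter
    (measurableSet_Ico.preimage Complex.measurable_im)

lemma volume_rc {a w b h : ℝ} (hw : 0 ≤ w) (_hh : 0 ≤ h) :
    volume (rc a w b h) = ENNReal.ofReal (w * h) := by
  have h1 : rc a w b h =
      Complex.measurableEquivRealProd ⁻¹' (Ico a (a + w) ×ˢ Ico b (b + h)) := by
    ext z
    simp [rc, Complex.mem_reProdIm]
  rw [h1, Complex.volume_preserving_equiv_real_prod.measure_preimage_equiv,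
    Measure.volume_eq_prod, Measure.prod_prod, Real.volume_Ico, Real.volume_Ico,
    ENNReal.ofReal_mul hw]
  congr 2 <;> ring

lemma volume_real_rc {a w b h : ℝ} (hw : 0 ≤ w) (hh : 0 ≤ h) :
    volume.real (rc a w b h) = w * h := by
  rw [measureReal_def, volume_rc hw hh, ENNReal.toReal_ofReal (mul_nonneg hw hh)]

/-- the rigid motion with angle `θ` and translation `v` -/
noncomputable def mv (g : ℝ × ℂ) (z : ℂ) : ℂ := Complex.exp (Complex.I * g.1) * z + g.2

lemma norm_rot (θ : ℝ) : ‖Complex.exp (Complex.I * θ)‖ = 1 := by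
  rw [mul_comm]; exact Complex.norm_exp_ofReal_mul_I θ

lemma continuous_mv : Continuous (fun p : (ℝ × ℂ) × ℂ => mv p.1 p.2) := by
  unfold mv
  fun_prop

lemma continuous_mv_right (g : ℝ × ℂ) : Continuous (mv g) := by
  unfold mv
  fun_prop

lemma dist_mv (g : ℝ × ℂ) (z w : ℂ) : ‖mv g z - mv g w‖ = ‖z - w‖ := by
  have : mv g z - mv g w = Complex.exp (Complex.I * g.1) * (z - w) := by
    unfold mv; ring
  rw [this, norm_mul, norm_rot, one_mul]

/-- multiplication by a unit complex number preserves area -/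
lemma mp_rot (θ : ℝ) :
    MeasurePreserving (fun z : ℂ => Complex.exp (Complex.I * θ) * z) volume volume := by
  have h := (rotation (Circle.exp θ)).measurePreserving
  have e : (fun z : ℂ => Complex.exp (Complex.I * θ) * z) = ⇑(rotation (Circle.exp θ)) := by
    ext z
    rw [rotation_apply, Circle.coe_exp, mul_comm (Complex.I)]
  rw [e]
  exact h

lemma mp_mv (g : ℝ × ℂ) : MeasurePreserving (mv g) volume volume := by
  have h := (measurePreserving_add_right (volume : Measure ℂ) g.2).comp (mp_rot g.1)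
  exact h

/-- how much of `A` is sent into `X` by the rigid motion `g` -/
noncomputable def occ (X : Set ℂ) (g : ℝ × ℂ) (A : Set ℂ) : ℝ := volume.real (A ∩ mv g ⁻¹' X)

lemma occ_nonneg (X : Set ℂ) (g : ℝ × ℂ) (A : Set ℂ) : 0 ≤ occ X g A := measureReal_nonneg

lemma occ_finite {X : Set ℂ} (hX : MeasurableSet X) (hfin : volume X ≠ ⊤) (g : ℝ × ℂ)
    (A : Set ℂ) : volume (A ∩ mv g ⁻¹' X) ≠ ⊤ := by
  refine ne_top_of_le_ne_top hfin ?_
  calc volume (A ∩ mv g ⁻¹' X) ≤ volume (mv g ⁻¹' X) := measure_mono inter_subset_right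
    _ = volume X := (mp_mv g).measure_preimage hX.nullMeasurableSet

lemma occ_le {X : Set ℂ} (hX : MeasurableSet X) (hfin : volume X ≠ ⊤) (g : ℝ × ℂ) (A : Set ℂ) :
    occ X g A ≤ volume.real X := by
  unfold occ
  rw [measureReal_def, measureReal_def]
  refine ENNReal.toReal_mono hfin ?_
  calc volume (A ∩ mv g ⁻¹' X) ≤ volume (mv g ⁻¹' X) := measure_mono inter_subset_right
    _ = volume X := (mp_mv g).measure_preimage hX.nullMeasurableSet

lemma occ_union {X : Set ℂ} (hX : MeasurableSet X) (hfin : volume X ≠ ⊤) (g : ℝ × ℂ)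
    {A B : Set ℂ} (hB : MeasurableSet B) (hd : Disjoint A B) :
    occ X g (A ∪ B) = occ X g A + occ X g B := by
  unfold occ
  rw [union_inter_distrib_right]
  exact measureReal_union (hd.mono inter_subset_left inter_subset_left)
    (hB.inter ((mp_mv g).measurable hX)) (occ_finite hX hfin g A) (occ_finite hX hfin g B)

lemma rc_split_width {a w1 w2 b h : ℝ} (h1 : 0 ≤ w1) (h2 : 0 ≤ w2) :
    rc a (w1 + w2) b h = rc a w1 b h ∪ rc (a + w1) w2 b h ∧
      Disjoint (rc a w1 b h) (rc (a + w1) w2 b h) := by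
  constructor
  · ext z
    rw [mem_union, mem_rc, mem_rc, mem_rc]
    constructor
    · rintro ⟨⟨h3, h4⟩, h5⟩
      rcases lt_or_ge z.re (a + w1) with h6 | h6
      · exact Or.inl ⟨⟨h3, h6⟩, h5⟩
      · exact Or.inr ⟨⟨h6, by linarith⟩, h5⟩
    · rintro (⟨⟨h3, h4⟩, h5⟩ | ⟨⟨h3, h4⟩, h5⟩)
      · exact ⟨⟨h3, by linarith⟩, h5⟩
      · exact ⟨⟨by linarith, by linarith⟩, h5⟩
  · rw [Set.disjoint_left]
    intro z hz hz'
    rw [mem_rc] at hz hz'
    linarith [hz.1.2, hz'.1.1]

lemma rc_split_height {a w b h1 h2 : ℝ} (hh1 : 0 ≤ h1) (hh2 : 0 ≤ h2) :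
    rc a w b (h1 + h2) = rc a w b h1 ∪ rc a w (b + h1) h2 ∧
      Disjoint (rc a w b h1) (rc a w (b + h1) h2) := by
  constructor
  · ext z
    rw [mem_union, mem_rc, mem_rc, mem_rc]
    constructor
    · rintro ⟨h5, ⟨h3, h4⟩⟩
      rcases lt_or_ge z.im (b + h1) with h6 | h6
      · exact Or.inl ⟨h5, ⟨h3, h6⟩⟩
      · exact Or.inr ⟨h5, ⟨h6, by linarith⟩⟩
    · rintro (⟨h5, ⟨h3, h4⟩⟩ | ⟨h5, ⟨h3, h4⟩⟩)
      · exact ⟨h5, ⟨h3, by linarith⟩⟩
      · exact ⟨h5, ⟨by linarith, by linarith⟩⟩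
  · rw [Set.disjoint_left]
    intro z hz hz'
    rw [mem_rc] at hz hz'
    linarith [hz.2.2, hz'.2.1]

lemma rc_zero_width {a b h : ℝ} : rc a 0 b h = ∅ := by
  ext z
  rw [mem_rc, mem_empty_iff_false, iff_false]
  rintro ⟨⟨h1, h2⟩, -⟩
  linarith

lemma rc_zero_height {a w b : ℝ} : rc a w b 0 = ∅ := by
  ext z
  rw [mem_rc, mem_empty_iff_false, iff_false]
  rintro ⟨-, ⟨h1, h2⟩⟩
  linarith

lemma occ_rc_width {X : Set ℂ} (hX : MeasurableSet X) (hfin : volume X ≠ ⊤) (g : ℝ × ℂ)
    {a w b h : ℝ} (hw : 0 ≤ w) (k : ℕ) :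
    occ X g (rc a (k * w) b h) = ∑ j ∈ Finset.range k, occ X g (rc (a + j * w) w b h) := by
  induction k with
  | zero => simp [rc_zero_width, occ]
  | succ k ih =>
    rw [Finset.sum_range_succ, ← ih]
    have h1 : ((k + 1 : ℕ) : ℝ) * w = k * w + w := by push_cast; ring
    obtain ⟨e, d⟩ := rc_split_width (a := a) (w1 := k * w) (w2 := w) (b := b) (h := h)
      (by positivity) hw
    rw [h1, e, occ_union hX hfin g (measurableSet_rc _ _ _ _) d]

lemma occ_rc_height {X : Set ℂ} (hX : MeasurableSet X) (hfin : volume X ≠ ⊤) (g : ℝ × ℂ)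
    {a w b h : ℝ} (hh : 0 ≤ h) (k : ℕ) :
    occ X g (rc a w b (k * h)) = ∑ j ∈ Finset.range k, occ X g (rc a w (b + j * h) h) := by
  induction k with
  | zero => simp [rc_zero_height, occ]
  | succ k ih =>
    rw [Finset.sum_range_succ, ← ih]
    have h1 : ((k + 1 : ℕ) : ℝ) * h = k * h + h := by push_cast; ring
    obtain ⟨e, d⟩ := rc_split_height (a := a) (w := w) (b := b) (h1 := k * h) (h2 := h)
      (by positivity) hh
    rw [h1, e, occ_union hX hfin g (measurableSet_rc _ _ _ _) d]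

/-- continuity of the occupied area under small changes of the rigid motion -/
lemma occ_near {X : Set ℂ} (hX : MeasurableSet X) (g g' : ℝ × ℂ)
    {a w b h d : ℝ} (hd : 0 ≤ d) (hw : 2 * d ≤ w) (hh : 2 * d ≤ h)
    (hnear : ∀ z ∈ rc a w b h, ‖mv g z - mv g' z‖ ≤ d) :
    occ X g (rc a w b h) ≤ occ X g' (rc a w b h) + 2 * d * (w + h) := by
  -- `φ` is the motion `g'⁻¹ g`
  let φ : ℂ → ℂ := fun z => Complex.exp (Complex.I * (-g'.1 : ℝ)) * (mv g z + (-g'.2))
  have hφ : MeasurePreserving φ volume volume := by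
    have h1 := (measurePreserving_add_right (volume : Measure ℂ) (-g'.2)).comp (mp_mv g)
    exact (mp_rot (-g'.1)).comp h1
  have hinv : ∀ z, mv g' (φ z) = mv g z := by
    intro z
    have h1 : Complex.exp (Complex.I * g'.1) * Complex.exp (Complex.I * (-g'.1 : ℝ)) = 1 := by
      rw [← Complex.exp_add]
      have : Complex.I * (g'.1 : ℂ) + Complex.I * ((-g'.1 : ℝ) : ℂ) = 0 := by push_cast; ring
      rw [this, Complex.exp_zero]
    show Complex.exp (Complex.I * g'.1) *
      (Complex.exp (Complex.I * (-g'.1 : ℝ)) * (mv g z + (-g'.2))) + g'.2 = mv g z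
    rw [← mul_assoc, h1]
    ring
  have hclose : ∀ z ∈ rc a w b h, ‖φ z - z‖ ≤ d := by
    intro z hz
    rw [← dist_mv g' (φ z) z, hinv]
    exact hnear z hz
  have hsub : rc a w b h ∩ mv g ⁻¹' X ⊆
      (φ ⁻¹' (rc a w b h ∩ mv g' ⁻¹' X)) ∪
        (rc a w b h \ rc (a + d) (w - 2 * d) (b + d) (h - 2 * d)) := by
    rintro z ⟨hz, hzX⟩
    by_cases hin : φ z ∈ rc a w b h
    · left
      refine ⟨hin, ?_⟩
      show mv g' (φ z) ∈ X
      rw [hinv]
      exact hzX
    · right
      refine ⟨hz, fun hz2 => hin ?_⟩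
      have h1 := hclose z hz
      have hre : |(φ z - z).re| ≤ d := le_trans (Complex.abs_re_le_norm _) h1
      have him : |(φ z - z).im| ≤ d := le_trans (Complex.abs_im_le_norm _) h1
      rw [Complex.sub_re, abs_le] at hre
      rw [Complex.sub_im, abs_le] at him
      rw [mem_rc] at hz2 ⊢
      obtain ⟨⟨h3, h4⟩, ⟨h5, h6⟩⟩ := hz2
      exact ⟨⟨by linarith [hre.1], by linarith [hre.2]⟩, ⟨by linarith [him.1], by linarith [him.2]⟩⟩
  have hfin2 : volume (rc a w b h) ≠ ⊤ := by
    rw [volume_rc (by linarith) (by linarith)]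
    exact ENNReal.ofReal_ne_top
  have hin2 : rc (a + d) (w - 2 * d) (b + d) (h - 2 * d) ⊆ rc a w b h := by
    intro z hz
    rw [mem_rc] at hz ⊢
    obtain ⟨⟨h3, h4⟩, ⟨h5, h6⟩⟩ := hz
    exact ⟨⟨by linarith, by linarith⟩, ⟨by linarith, by linarith⟩⟩
  have hvol : volume.real (rc a w b h \ rc (a + d) (w - 2 * d) (b + d) (h - 2 * d)) ≤
      2 * d * (w + h) := by
    rw [measureReal_sdiff hin2 (measurableSet_rc _ _ _ _), volume_real_rc (by linarith)
      (by linarith), volume_real_rc (by linarith) (by linarith)]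
    nlinarith
  have hA : MeasurableSet (rc a w b h ∩ mv g' ⁻¹' X) :=
    (measurableSet_rc _ _ _ _).inter ((mp_mv g').measurable hX)
  unfold occ
  calc volume.real (rc a w b h ∩ mv g ⁻¹' X)
      ≤ volume.real ((φ ⁻¹' (rc a w b h ∩ mv g' ⁻¹' X)) ∪
        (rc a w b h \ rc (a + d) (w - 2 * d) (b + d) (h - 2 * d))) := by
        refine measureReal_mono hsub ?_
        refine (measure_union_lt_top ?_ ?_).ne
        · rw [hφ.measure_preimage hA.nullMeasurableSet]
          exact lt_of_le_of_lt (measure_mono inter_subset_left) hfin2.lt_top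
        · exact lt_of_le_of_lt (measure_mono sdiff_subset) hfin2.lt_top
    _ ≤ volume.real (φ ⁻¹' (rc a w b h ∩ mv g' ⁻¹' X)) +
        volume.real (rc a w b h \ rc (a + d) (w - 2 * d) (b + d) (h - 2 * d)) :=
        measureReal_union_le _ _
    _ ≤ _ := by
        have h1 : volume.real (φ ⁻¹' (rc a w b h ∩ mv g' ⁻¹' X)) =
            volume.real (rc a w b h ∩ mv g' ⁻¹' X) := by
          rw [measureReal_def, measureReal_def, hφ.measure_preimage hA.nullMeasurableSet]
        rw [h1]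
        linarith

end Pool.Agent.helper17.Worm
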