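import Mathlib

set_option autoImplicit false

/-!
Polygonal paths and the regularity (compactness) lemma for open covers of 1-Lipschitz curves.
-/

namespace Pool.Agent.helper17.Worm

open Set

/-- there is a `1`-Lipschitz path which at time `ℓ` is at `p` and up to this time covers `A` -/
def Reach (ℓ : ℝ) (p : ℂ) (A : Set ℂ) : Prop :=
  0 ≤ ℓ ∧ ∃ f : ℝ → ℂ, LipschitzWith 1 f ∧ f ℓ = p ∧ A ⊆ f '' Icc 0 ℓ

lemma reach_zero (p : ℂ) : Reach 0 p {p} :=
  ⟨le_rfl, fun _ => p, LipschitzWith.const' p, rfl, by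
    rintro z rfl
    exact ⟨0, by simp, rfl⟩⟩

lemma lipschitz_of_ordered {f : ℝ → ℂ} (h : ∀ s t, s ≤ t → ‖f s - f t‖ ≤ t - s) :
    LipschitzWith 1 f := by
  refine LipschitzWith.of_dist_le_mul fun s t => ?_
  rw [NNReal.coe_one, one_mul, dist_eq_norm, Real.dist_eq]
  rcases le_total s t with hst | hst
  · rw [abs_sub_comm, abs_of_nonneg (by linarith)]
    exact h s t hst
  · rw [abs_of_nonneg (by linarith), norm_sub_rev]
    exact h t s hst

lemma Reach.extend {ℓ : ℝ} {p q : ℂ} {A : Set ℂ} (h : Reach ℓ p A) {s : ℝ} (hs : ‖q - p‖ ≤ s) :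
    Reach (ℓ + s) q (A ∪ segment ℝ p q) := by
  obtain ⟨hℓ, f, hf, hfp, hA⟩ := h
  have hs0 : 0 ≤ s := le_trans (norm_nonneg _) hs
  -- the direction
  obtain ⟨u, hu1, hu2⟩ : ∃ u : ℂ, ‖u‖ ≤ 1 ∧ (s : ℂ) * u = q - p := by
    rcases hs0.eq_or_lt with h0 | h0
    · refine ⟨0, by simp, ?_⟩
      rw [← h0] at hs
      have : q - p = 0 := norm_le_zero_iff.mp hs
      rw [this, mul_zero]
    · refine ⟨(s : ℂ)⁻¹ * (q - p), ?_, ?_⟩
      · rw [norm_mul, norm_inv, Complex.norm_real, Real.norm_of_nonneg hs0, inv_mul_le_iff₀ h0]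
        simpa using hs
      · have : (s : ℂ) ≠ 0 := by exact_mod_cast h0.ne'
        field_simp
  let cl : ℝ → ℝ := fun t => max 0 (min (t - ℓ) s)
  let F : ℝ → ℂ := fun t => f (min t ℓ) + (cl t : ℂ) * u
  have hcl : ∀ a b : ℝ, a ≤ b → 0 ≤ cl b - cl a ∧ (min b ℓ - min a ℓ) + (cl b - cl a) ≤ b - a := by
    intro a b hab
    simp only [cl]
    constructor
    · have : min (a - ℓ) s ≤ min (b - ℓ) s := min_le_min (by linarith) le_rfl
      have := max_le_max (le_refl (0 : ℝ)) this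
      linarith
    · rcases le_total a ℓ with h1 | h1 <;> rcases le_total b ℓ with h2 | h2
      · rw [min_eq_left h1, min_eq_left h2, min_eq_left (by linarith : a - ℓ ≤ s),
          min_eq_left (by linarith : b - ℓ ≤ s), max_eq_left (by linarith : a - ℓ ≤ 0),
          max_eq_left (by linarith : b - ℓ ≤ 0)]
        linarith
      · rw [min_eq_left h1, min_eq_right h2, min_eq_left (by linarith : a - ℓ ≤ s),
          max_eq_left (by linarith : a - ℓ ≤ 0)]
        have : max 0 (min (b - ℓ) s) ≤ b - ℓ := max_le (by linarith) (min_le_left _ _)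
        linarith
      · have : a = b ∨ a < b := hab.eq_or_lt
        have hae : a = ℓ := by linarith
        have hbe : b = ℓ := by linarith
        rw [hae, hbe]
        simp
      · rw [min_eq_right h1, min_eq_right h2, max_eq_right (le_min (by linarith) hs0),
          max_eq_right (le_min (by linarith) hs0)]
        rcases le_total (a - ℓ) s with h3 | h3
        · rw [min_eq_left h3]
          have := min_le_left (b - ℓ) s
          linarith
        · rw [min_eq_right h3, min_eq_right (by linarith : s ≤ b - ℓ)]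
          linarith
  refine ⟨by linarith, F, ?_, ?_, ?_⟩
  · refine lipschitz_of_ordered fun a b hab => ?_
    obtain ⟨h1, h2⟩ := hcl a b hab
    have e : F a - F b = (f (min a ℓ) - f (min b ℓ)) + ((cl a - cl b : ℝ) : ℂ) * u := by
      simp only [F]
      push_cast
      ring
    rw [e]
    calc ‖(f (min a ℓ) - f (min b ℓ)) + ((cl a - cl b : ℝ) : ℂ) * u‖
        ≤ ‖f (min a ℓ) - f (min b ℓ)‖ + ‖((cl a - cl b : ℝ) : ℂ) * u‖ := norm_add_le _ _
      _ ≤ (min b ℓ - min a ℓ) + (cl b - cl a) := by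
          refine add_le_add ?_ ?_
          · have := hf.dist_le_mul (min a ℓ) (min b ℓ)
            rw [NNReal.coe_one, one_mul, dist_eq_norm, Real.dist_eq, abs_sub_comm,
              abs_of_nonneg (by
                have : min a ℓ ≤ min b ℓ := min_le_min hab le_rfl
                linarith)] at this
            exact this
          · rw [norm_mul, Complex.norm_real, Real.norm_eq_abs, abs_sub_comm, abs_of_nonneg h1]
            calc (cl b - cl a) * ‖u‖ ≤ (cl b - cl a) * 1 := mul_le_mul_of_nonneg_left hu1 h1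
              _ = _ := mul_one _
      _ ≤ b - a := h2
  · simp only [F, cl]
    rw [min_eq_right (by linarith : ℓ ≤ ℓ + s), hfp, add_sub_cancel_left, min_self,
      max_eq_right hs0, hu2]
    ring
  · rintro z (hz | hz)
    · obtain ⟨t, ht, rfl⟩ := hA hz
      refine ⟨t, ⟨ht.1, by linarith [ht.2]⟩, ?_⟩
      simp only [F, cl]
      rw [min_eq_left ht.2, min_eq_left (by linarith [ht.2] : t - ℓ ≤ s),
        max_eq_left (by linarith [ht.2])]
      simp
    · rw [segment_eq_image'] at hz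
      obtain ⟨c, hc, rfl⟩ := hz
      refine ⟨ℓ + c * s, ⟨by nlinarith [hc.1], by nlinarith [hc.2]⟩, ?_⟩
      simp only [F, cl]
      have h1 : c * s ≤ s := by nlinarith [hc.2]
      have h2 : 0 ≤ c * s := mul_nonneg hc.1 hs0
      rw [min_eq_right (by linarith : ℓ ≤ ℓ + c * s), hfp, add_sub_cancel_left, min_eq_left h1,
        max_eq_right h2, ← hu2]
      rw [Complex.real_smul]
      push_cast
      ring

/-- total variation of the heights `y 0, ..., y (m-1)` -/
noncomputable def TV (m : ℕ) (y : ℕ → ℝ) : ℝ := ∑ i ∈ Finset.range (m - 1), |y (i + 1) - y i|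

/-- a staircase curve -/
lemma reach_stairs (a w : ℝ) (hw : 0 ≤ w) (y : ℕ → ℝ) (n : ℕ) :
    Reach ((n + 1 : ℕ) * w + TV (n + 1) y) (⟨a + (n + 1 : ℕ) * w, y n⟩ : ℂ)
      {z | ∃ i < n + 1, z.im = y i ∧ a + i * w ≤ z.re ∧ z.re ≤ a + (i + 1 : ℕ) * w} := by
  have hseg : ∀ (x h : ℝ) (z : ℂ), z.im = h → x ≤ z.re → z.re ≤ x + w →
      z ∈ segment ℝ (⟨x, h⟩ : ℂ) (⟨x + w, h⟩ : ℂ) := by
    intro x h z h1 h2 h3
    rw [segment_eq_image']
    rcases hw.eq_or_lt with h0 | h0
    · refine ⟨0, by simp, ?_⟩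
      apply Complex.ext
      · simp; linarith
      · simp; exact h1.symm
    · refine ⟨(z.re - x) / w, ⟨by apply div_nonneg <;> linarith, ?_⟩, ?_⟩
      · rw [div_le_one h0]; linarith
      · apply Complex.ext
        · simp
          field_simp
          ring
        · simp [h1]
  induction n with
  | zero =>
    have h0 := (reach_zero (⟨a, y 0⟩ : ℂ)).extend (q := (⟨a + w, y 0⟩ : ℂ)) (s := w) (by
      have : (⟨a + w, y 0⟩ : ℂ) - ⟨a, y 0⟩ = (w : ℂ) := by
        apply Complex.ext <;> simp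
      rw [this, Complex.norm_real, Real.norm_of_nonneg hw])
    obtain ⟨h1, f, hf, h2, h3⟩ := h0
    have e1 : ((0 + 1 : ℕ) : ℝ) * w + TV (0 + 1) y = 0 + w := by simp [TV]
    have e2 : (⟨a + ((0 + 1 : ℕ) : ℝ) * w, y 0⟩ : ℂ) = ⟨a + w, y 0⟩ := by simp
    rw [e1, e2]
    refine ⟨h1, f, hf, h2, fun z hz => h3 (Or.inr ?_)⟩
    obtain ⟨i, hi, h4, h5, h6⟩ := hz
    have hi0 : i = 0 := by omega
    subst hi0
    refine hseg a (y 0) z h4 (by simpa using h5) (by simpa using h6)
  | succ n ih =>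
    have e0 : (⟨a + ((n + 1 : ℕ) : ℝ) * w, y (n + 1)⟩ : ℂ) - ⟨a + ((n + 1 : ℕ) : ℝ) * w, y n⟩ =
        ((y (n + 1) - y n : ℝ) : ℂ) * Complex.I := by
      apply Complex.ext <;> simp
    have h0 := (ih.extend (q := (⟨a + ((n + 1 : ℕ) : ℝ) * w, y (n + 1)⟩ : ℂ))
      (s := |y (n + 1) - y n|) (by
        rw [e0, norm_mul, Complex.norm_I, mul_one, Complex.norm_real, Real.norm_eq_abs])).extend
      (q := (⟨a + ((n + 1 : ℕ) : ℝ) * w + w, y (n + 1)⟩ : ℂ)) (s := w) (by
      have : (⟨a + ((n + 1 : ℕ) : ℝ) * w + w, y (n + 1)⟩ : ℂ) -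
          ⟨a + ((n + 1 : ℕ) : ℝ) * w, y (n + 1)⟩ = (w : ℂ) := by
        apply Complex.ext <;> simp
      rw [this, Complex.norm_real, Real.norm_of_nonneg hw])
    obtain ⟨h1, f, hf, h2, h3⟩ := h0
    have e1 : ((n + 1 + 1 : ℕ) : ℝ) * w + TV (n + 1 + 1) y =
        ((n + 1 : ℕ) : ℝ) * w + TV (n + 1) y + |y (n + 1) - y n| + w := by
      simp only [TV, Nat.add_sub_cancel]
      rw [Finset.sum_range_succ]
      push_cast
      ring
    have e2 : (⟨a + ((n + 1 + 1 : ℕ) : ℝ) * w, y (n + 1)⟩ : ℂ) =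
        ⟨a + ((n + 1 : ℕ) : ℝ) * w + w, y (n + 1)⟩ := by
      apply Complex.ext
      · push_cast; ring
      · rfl
    rw [e1, e2]
    refine ⟨h1, f, hf, h2, fun z hz => h3 ?_⟩
    obtain ⟨i, hi, h4, h5, h6⟩ := hz
    rcases Nat.lt_succ_iff_lt_or_eq.mp hi with h7 | h7
    · exact Or.inl (Or.inl ⟨i, h7, h4, h5, h6⟩)
    · right
      subst h7
      refine hseg _ _ z h4 h5 ?_
      have : ((n + 1 + 1 : ℕ) : ℝ) * w = ((n + 1 : ℕ) : ℝ) * w + w := by push_cast; ring
      linarith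

/-- refining the blocks does not change the total variation -/
lemma tv_refine (y : ℕ → ℝ) {k : ℕ} (n : ℕ) :
    ∑ l ∈ Finset.range n, |y ((l + 1) / k) - y (l / k)| =
      ∑ i ∈ Finset.range (n / k), |y (i + 1) - y i| := by
  induction n with
  | zero => simp
  | succ n ih =>
    rw [Finset.sum_range_succ, ih, Nat.succ_div]
    split_ifs with h
    · rw [Finset.sum_range_succ]
    · simp


/-- **Regularity.** If an open set `X` contains a rigid copy of every `1`-Lipschitz path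
parametrised by `[0, 1]`, then it does so with a uniform margin `δ`. -/
lemma regular {X : Set ℂ} (hX : IsOpen X)
    (hcov : ∀ f : ℝ → ℂ, LipschitzWith 1 f →
      ∃ a b : ℂ, ‖a‖ = 1 ∧ ∀ t ∈ Icc (0 : ℝ) 1, a * f t + b ∈ X) :
    ∃ δ > 0, ∀ f : ℝ → ℂ, LipschitzWith 1 f →
      ∃ a b : ℂ, ‖a‖ = 1 ∧ ∀ t ∈ Icc (0 : ℝ) 1, Metric.ball (a * f t + b) δ ⊆ X := by
  by_contra hcon
  push Not at hcon
  have hδ : ∀ n : ℕ, (0 : ℝ) < 1 / (n + 1) := fun n => by positivity
  choose f hf hbad using fun n : ℕ => hcon (1 / (n + 1)) (hδ n)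
  -- normalised paths
  let h : ℕ → ℝ → ℂ := fun n t => f n t - f n 0
  let K : Set (ℝ → ℂ) := Set.pi univ (fun t => Metric.closedBall (0 : ℂ) |t|)
  have hK : IsCompact K := isCompact_univ_pi fun t => isCompact_closedBall _ _
  have hlip : ∀ n s t, ‖f n s - f n t‖ ≤ |s - t| := by
    intro n s t
    have := (hf n).dist_le_mul s t
    rwa [NNReal.coe_one, one_mul, dist_eq_norm, Real.dist_eq] at this
  have hhK : ∀ n, h n ∈ K := by
    intro n t _
    rw [mem_closedBall_zero_iff]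
    have := hlip n t 0
    rwa [sub_zero] at this
  let C : Set (ℝ → ℂ) := {φ | ∀ s t, ‖φ s - φ t‖ ≤ |s - t|}
  have hC : IsClosed C := by
    have : C = ⋂ (s : ℝ) (t : ℝ), {φ : ℝ → ℂ | ‖φ s - φ t‖ ≤ |s - t|} := by
      ext φ; simp [C]
    rw [this]
    refine isClosed_iInter fun s => isClosed_iInter fun t => ?_
    refine isClosed_le ?_ continuous_const
    exact ((continuous_apply s).sub (continuous_apply t)).norm
  have hKC : IsCompact (K ∩ C) := hK.inter_right hC
  have hhKC : ∀ n, h n ∈ K ∩ C := by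
    refine fun n => ⟨hhK n, fun s t => ?_⟩
    simp only [h]
    have := hlip n s t
    have e : f n s - f n 0 - (f n t - f n 0) = f n s - f n t := by ring
    rwa [e]
  obtain ⟨φ, hφ, hcl⟩ := hKC.exists_mapClusterPt (f := Filter.atTop) (u := h)
    (Filter.le_principal_iff.mpr (Filter.mem_map.mpr (Filter.Eventually.of_forall hhKC)))
  have hφlip : LipschitzWith 1 φ := by
    refine LipschitzWith.of_dist_le_mul fun s t => ?_
    rw [NNReal.coe_one, one_mul, dist_eq_norm, Real.dist_eq]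
    exact hφ.2 s t
  obtain ⟨a, b, ha, hab⟩ := hcov φ hφlip
  -- margin for the limit
  have hcomp : IsCompact ((fun t => a * φ t + b) '' Icc (0 : ℝ) 1) :=
    isCompact_Icc.image_of_continuousOn
      ((continuous_const.mul hφlip.continuous).add continuous_const).continuousOn
  have hsub : (fun t => a * φ t + b) '' Icc (0 : ℝ) 1 ⊆ X := by
    rintro _ ⟨t, ht, rfl⟩
    exact hab t ht
  obtain ⟨δ, hδ0, hδX⟩ := hcomp.exists_thickening_subset_open hX hsub
  -- a fine grid
  obtain ⟨N, hN⟩ := exists_nat_gt (8 / δ)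
  have hN0 : (0 : ℝ) < N := lt_trans (by positivity) hN
  have hN1 : 1 / (N : ℝ) < δ / 8 := by
    rw [div_lt_iff₀ hN0]
    rw [div_lt_iff₀ hδ0] at hN
    linarith
  let U : Set (ℝ → ℂ) := {ψ | ∀ i ∈ Finset.range (N + 1), ‖ψ (i / N) - φ (i / N)‖ < δ / 4}
  have hU : U ∈ nhds φ := by
    have hUo : IsOpen U := by
      have : U = ⋂ i ∈ Finset.range (N + 1), {ψ : ℝ → ℂ | ‖ψ (i / N) - φ (i / N)‖ < δ / 4} := by
        ext ψ; simp [U]
      rw [this]
      refine isOpen_biInter_finset fun i _ => ?_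
      refine isOpen_lt ?_ continuous_const
      exact ((continuous_apply _).sub continuous_const).norm
    refine hUo.mem_nhds ?_
    intro i _
    rw [sub_self, norm_zero]
    positivity
  have hfreq : ∃ᶠ n in Filter.atTop, h n ∈ U := mapClusterPt_iff_frequently.mp hcl U hU
  obtain ⟨M, hM⟩ := exists_nat_gt (4 / δ)
  obtain ⟨n, hnM, hnU⟩ := Filter.frequently_atTop.mp hfreq M
  have hn1 : 1 / ((n : ℝ) + 1) < δ / 4 := by
    have h1 : (M : ℝ) ≤ n := by exact_mod_cast hnM
    have h2 : (0 : ℝ) < n + 1 := by positivity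
    rw [div_lt_iff₀ h2]
    rw [div_lt_iff₀ hδ0] at hM
    nlinarith
  obtain ⟨t, ht, hnot⟩ := hbad n a (b - a * f n 0) ha
  apply hnot
  intro z hz
  rw [Metric.mem_ball, dist_eq_norm] at hz
  apply hδX
  rw [Metric.mem_thickening_iff]
  refine ⟨a * φ t + b, ⟨t, ht, rfl⟩, ?_⟩
  -- closeness of `h n` and `φ` at `t`
  obtain ⟨i, hi, hti⟩ : ∃ i ∈ Finset.range (N + 1), |t - i / N| ≤ 1 / N := by
    refine ⟨⌊t * N⌋₊, ?_, ?_⟩
    · rw [Finset.mem_range]
      have : ⌊t * N⌋₊ ≤ N := by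
        apply Nat.floor_le_of_le
        nlinarith [ht.2]
      omega
    · have h1 := Nat.floor_le (show 0 ≤ t * N by nlinarith [ht.1])
      have h2 := Nat.lt_floor_add_one (t * N)
      have e : t - (⌊t * N⌋₊ : ℝ) / N = (t * N - ⌊t * N⌋₊) / N := by field_simp
      rw [e, abs_of_nonneg (div_nonneg (by linarith) hN0.le)]
      gcongr
      linarith
  have c1 : ‖h n t - φ t‖ < δ / 2 := by
    have e : h n t - φ t = (h n t - h n (i / N)) + (h n (i / N) - φ (i / N)) +
        (φ (i / N) - φ t) := by ring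
    rw [e]
    have g1 : ‖h n t - h n (i / N)‖ ≤ 1 / N := ((hhKC n).2 t (i / N)).trans hti
    have g2 : ‖φ (i / N) - φ t‖ ≤ 1 / N := (hφ.2 (i / N) t).trans (by rwa [abs_sub_comm])
    have g3 := hnU i hi
    calc ‖(h n t - h n (i / N)) + (h n (i / N) - φ (i / N)) + (φ (i / N) - φ t)‖
        ≤ ‖(h n t - h n (i / N)) + (h n (i / N) - φ (i / N))‖ + ‖φ (i / N) - φ t‖ :=
          norm_add_le _ _
      _ ≤ ‖h n t - h n (i / N)‖ + ‖h n (i / N) - φ (i / N)‖ + ‖φ (i / N) - φ t‖ := by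
          gcongr; exact norm_add_le _ _
      _ < δ / 2 := by linarith
  rw [dist_eq_norm]
  have e : z - (a * φ t + b) = (z - (a * f n t + (b - a * f n 0))) + a * (h n t - φ t) := by
    simp only [h]; ring
  rw [e]
  calc ‖(z - (a * f n t + (b - a * f n 0))) + a * (h n t - φ t)‖
      ≤ ‖z - (a * f n t + (b - a * f n 0))‖ + ‖a * (h n t - φ t)‖ := norm_add_le _ _
    _ < δ / 4 + δ / 2 := by
        rw [norm_mul, ha, one_mul]
        linarith
    _ < δ := by linarith

end Pool.Agent.helper17.Worm
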