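import Mathlib
import Pool.Agent.helper17.WormGeom
import Pool.Agent.helper17.WormCount
import Pool.Agent.helper17.WormPath

set_option autoImplicit false

/-!
One step of the multiscale construction.
-/

namespace Pool.Agent.helper17.Worm

open MeasureTheory Set

lemma measurableSet_occ {X A : Set ℂ} (hX : MeasurableSet X) (hA : MeasurableSet A) :
    MeasurableSet {p : (ℝ × ℂ) × ℂ | p.2 ∈ A ∧ mv p.1 p.2 ∈ X} :=
  (hA.preimage measurable_snd).inter (hX.preimage continuous_mv.measurable)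

lemma measurable_occ {X A : Set ℂ} (hX : MeasurableSet X) (hA : MeasurableSet A) :
    Measurable (fun g : ℝ × ℂ => volume (A ∩ mv g ⁻¹' X)) :=
  measurable_measure_prodMk_left (measurableSet_occ hX hA)

/-- integral of the occupied area over all translations -/
lemma lintegral_occ {X A : Set ℂ} (hX : MeasurableSet X) (hA : MeasurableSet A) (θ : ℝ) :
    ∫⁻ v : ℂ, volume (A ∩ mv (θ, v) ⁻¹' X) = volume A * volume X := by
  let E : Set (ℂ × ℂ) := {p | p.2 ∈ A ∧ mv (θ, p.1) p.2 ∈ X}
  have hE : MeasurableSet E := by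
    have hc : Continuous (fun p : ℂ × ℂ => mv (θ, p.1) p.2) := by
      unfold mv
      fun_prop
    exact (hA.preimage measurable_snd).inter (hX.preimage hc.measurable)
  have h1 : (volume.prod volume : Measure (ℂ × ℂ)) E = ∫⁻ v : ℂ, volume (A ∩ mv (θ, v) ⁻¹' X) :=
    Measure.prod_apply hE
  have h2 : (volume.prod volume : Measure (ℂ × ℂ)) E =
      ∫⁻ z : ℂ, A.indicator (fun _ => volume X) z := by
    rw [Measure.prod_apply_symm hE]
    refine lintegral_congr fun z => ?_
    by_cases hz : z ∈ A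
    · rw [indicator_of_mem hz]
      have : (fun x : ℂ => (x, z)) ⁻¹' E =
          (fun v => Complex.exp (Complex.I * θ) * z + v) ⁻¹' X := by
        ext v
        exact ⟨fun h => h.2, fun h => ⟨hz, h⟩⟩
      rw [this, measure_preimage_add]
    · rw [indicator_of_notMem hz]
      have : (fun x : ℂ => (x, z)) ⁻¹' E = ∅ := by
        ext v
        simp only [mem_preimage, mem_empty_iff_false, iff_false]
        exact fun h => hz h.1
      rw [this, measure_empty]
  rw [← h1, h2, lintegral_indicator hA, setLIntegral_const, mul_comm]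

/-- the measure on the space of rigid motions, with angle restricted to `[α, β]` -/
noncomputable def muG (α β : ℝ) : Measure (ℝ × ℂ) :=
  ((volume : Measure ℝ).restrict (Icc α β)).prod (volume : Measure ℂ)

lemma lintegral_muG {X A : Set ℂ} (hX : MeasurableSet X) (hA : MeasurableSet A) (α β : ℝ) :
    ∫⁻ g, volume (A ∩ mv g ⁻¹' X) ∂(muG α β) =
      ENNReal.ofReal (β - α) * (volume A * volume X) := by
  unfold muG
  rw [lintegral_prod _ (measurable_occ hX hA).aemeasurable]
  simp_rw [lintegral_occ hX hA]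
  rw [lintegral_const, Measure.restrict_apply_univ, Real.volume_Icc, mul_comm]

/-- choose an element for which two nonnegative quantities are simultaneously small -/
lemma exists_choice {ι : Type*} [Fintype ι] [Nonempty ι] (a b : ι → ℝ) {v B : ℝ}
    (ha : ∀ i, 0 ≤ a i) (hb : ∀ i, 0 ≤ b i)
    (hv : 0 < v) (hB : 0 < B)
    (h : (∑ i, a i) / v + (∑ i, b i) / B < Fintype.card ι) : ∃ i, a i < v ∧ b i < B := by
  by_contra hcon
  push Not at hcon
  have h1 : ∀ i, (1 : ℝ) ≤ a i / v + b i / B := by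
    intro i
    rcases lt_or_ge (a i) v with h2 | h2
    · have h3 := hcon i h2
      have : 1 ≤ b i / B := by rwa [le_div_iff₀ hB, one_mul]
      have : 0 ≤ a i / v := div_nonneg (ha i) hv.le
      linarith
    · have : 1 ≤ a i / v := by rwa [le_div_iff₀ hv, one_mul]
      have : 0 ≤ b i / B := div_nonneg (hb i) hB.le
      linarith
  have h2 : (Fintype.card ι : ℝ) ≤ (∑ i, a i) / v + (∑ i, b i) / B := by
    rw [Finset.sum_div, Finset.sum_div, ← Finset.sum_add_distrib]
    calc (Fintype.card ι : ℝ) = ∑ _i : ι, (1 : ℝ) := by simp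
      _ ≤ _ := Finset.sum_le_sum fun i _ => h1 i
  linarith

lemma sum_block {m k : ℕ} (hk : 1 ≤ k) {i : ℕ} (hi : i < m) (f : ℕ → ℝ) :
    ∑ l ∈ Finset.univ.filter (fun l : Fin (m * k) => l.val / k = i), f l.val =
      ∑ j ∈ Finset.range k, f (i * k + j) := by
  symm
  have hlt : ∀ j ∈ Finset.range k, i * k + j < m * k := by
    intro j hj
    have := Finset.mem_range.mp hj
    calc i * k + j < i * k + k := by omega
      _ = (i + 1) * k := by ring
      _ ≤ m * k := Nat.mul_le_mul_right k hi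
  refine Finset.sum_bij (fun j hj => (⟨i * k + j, hlt j hj⟩ : Fin (m * k))) ?_ ?_ ?_ ?_
  · intro j hj
    rw [Finset.mem_filter]
    refine ⟨Finset.mem_univ _, ?_⟩
    show (i * k + j) / k = i
    rw [mul_comm, Nat.mul_add_div hk, Nat.div_eq_of_lt (Finset.mem_range.mp hj), add_zero]
  · intro j1 _ j2 _ h
    have : i * k + j1 = i * k + j2 := congrArg Fin.val h
    omega
  · intro l hl
    have h1 := (Finset.mem_filter.mp hl).2
    have h2 := Nat.div_add_mod l.val k
    have h3 := Nat.mod_lt l.val hk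
    refine ⟨l.val % k, Finset.mem_range.mpr h3, ?_⟩
    apply Fin.ext
    show i * k + l.val % k = l.val
    rw [h1] at h2
    rw [mul_comm]
    exact h2
  · intro j hj
    rfl

lemma card_block {m k : ℕ} (hk : 1 ≤ k) {i : ℕ} (hi : i < m) :
    (Finset.univ.filter (fun l : Fin (m * k) => l.val / k = i)).card = k := by
  have := sum_block hk hi (fun _ => (1 : ℝ))
  rw [Finset.sum_const, Finset.sum_const, Finset.card_range] at this
  simpa using this

/-- `X` fills, for every rigid motion, at most the proportion `s` of one of the `m` blocks of the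
staircase strip with heights `y` and thickness `R`. -/
def Thin (X : Set ℂ) (s L : ℝ) (m : ℕ) (y : ℕ → ℝ) (R : ℝ) : Prop :=
  ∀ g : ℝ × ℂ, ∃ i < m, occ X g (rc (-(L / 2) + i * (L / m)) (L / m) (y i) R) ≤ s * (L / m * R)

/-- refined heights -/
noncomputable def refine' {N q : ℕ} (k : ℕ) (y : ℕ → ℝ) (R' : ℝ) (S : Fin N → Fin q) : ℕ → ℝ :=
  fun l => y (l / k) + (if h : l < N then ((S ⟨l, h⟩).val : ℝ) else 0) * R'

lemma tv_refine' {m k q : ℕ} (hm : 1 ≤ m) (hk : 1 ≤ k) (y : ℕ → ℝ) {R' : ℝ} (hR' : 0 ≤ R')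
    (S : Fin (m * k) → Fin q) : TV (m * k) (refine' k y R' S) ≤ TV m y + jump S * R' := by
  unfold TV refine' jump
  have h0 : 1 ≤ m * k := Nat.mul_pos hm hk
  have hdiv : (m * k - 1) / k = m - 1 := by
    obtain ⟨m', rfl⟩ : ∃ m', m = m' + 1 := ⟨m - 1, by omega⟩
    have : (m' + 1) * k - 1 = k * m' + (k - 1) := by
      have : (m' + 1) * k = k * m' + k := by ring
      omega
    rw [this, Nat.mul_add_div hk, Nat.div_eq_of_lt (by omega)]
    simp
  have h1 := tv_refine y (k := k) (m * k - 1)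
  rw [hdiv] at h1
  rw [← h1, Finset.sum_mul, ← Finset.sum_add_distrib]
  refine Finset.sum_le_sum fun l hl => ?_
  have hl1 : l + 1 < m * k := by
    have := Finset.mem_range.mp hl
    omega
  have hl2 : l < m * k := by omega
  simp only [hl1, hl2, dif_pos]
  calc |y ((l + 1) / k) + ((S ⟨l + 1, hl1⟩).val : ℝ) * R' - (y (l / k) + ((S ⟨l, hl2⟩).val : ℝ) * R')|
      = |(y ((l + 1) / k) - y (l / k)) +
          (((S ⟨l + 1, hl1⟩).val : ℝ) - ((S ⟨l, hl2⟩).val : ℝ)) * R'| := by ring_nf
    _ ≤ |y ((l + 1) / k) - y (l / k)| +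
          |(((S ⟨l + 1, hl1⟩).val : ℝ) - ((S ⟨l, hl2⟩).val : ℝ)) * R'| := abs_add_le _ _
    _ = _ := by rw [abs_mul, abs_of_nonneg hR']


open Classical in
/-- the counting estimate for one rigid motion -/
lemma count_motion {X : Set ℂ} (hX : MeasurableSet X) (hfin : volume X ≠ ⊤) {s L R t w R' : ℝ}
    (hL : 0 < L) (hR : 0 < R) (hs : 0 ≤ s) (ht : 0 < t) {m k q : ℕ} (hm : 1 ≤ m) (hk : 1 ≤ k)
    (hq : 1 ≤ q) (hw : w = L / (m * k)) (hR' : R' = R / q)
    {y : ℕ → ℝ} (hthin : Thin X s L m y R) (g : ℝ × ℂ) :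
    ((Finset.univ.filter (fun S : Fin (m * k) → Fin q => ∀ l : Fin (m * k),
      t * (w * R') < occ X g (rc (-(L / 2) + l.val * w) w
        (y (l.val / k) + (S l).val * R') R'))).card : ℝ) ≤
      (q : ℝ) ^ (m * k) * ((1 / t) * (s / t) ^ (k - 1)) *
        ((1 / (L * R)) * ∑ i ∈ Finset.range m,
          occ X g (rc (-(L / 2) + i * (L / m)) (L / m) (y i) R)) := by
  have hm' : (0 : ℝ) < m := by exact_mod_cast hm
  have hk' : (0 : ℝ) < k := by exact_mod_cast hk
  have hq' : (0 : ℝ) < q := by exact_mod_cast hq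
  have hw0 : 0 < w := by rw [hw]; positivity
  have hR'0 : 0 < R' := by rw [hR']; positivity
  have hLm : L / m = k * w := by rw [hw]; field_simp
  have hRq : R = q * R' := by rw [hR']; field_simp
  let W : ℕ → ℝ := fun i => occ X g (rc (-(L / 2) + i * (L / m)) (L / m) (y i) R)
  have hW0 : ∀ i, 0 ≤ W i := fun i => occ_nonneg _ _ _
  let o : ℕ → ℕ → ℝ := fun l c =>
    occ X g (rc (-(L / 2) + l * w) w (y (l / k) + c * R') R')
  -- decomposition of a block
  have hWsum : ∀ i, W i = ∑ j ∈ Finset.range k, ∑ c ∈ Finset.range q, o (i * k + j) c := by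
    intro i
    simp only [W]
    rw [hLm, occ_rc_width hX hfin g hw0.le k]
    refine Finset.sum_congr rfl fun j hj => ?_
    rw [hRq, occ_rc_height hX hfin g hR'0.le q]
    refine Finset.sum_congr rfl fun c _ => ?_
    simp only [o]
    have h1 : (i * k + j) / k = i := by
      rw [mul_comm, Nat.mul_add_div hk, Nat.div_eq_of_lt (Finset.mem_range.mp hj), add_zero]
    rw [h1]
    have h2 : -(L / 2) + (i : ℝ) * (k * w) + j * w = -(L / 2) + ((i * k + j : ℕ) : ℝ) * w := by
      push_cast; ring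
    rw [h2]
  -- the best block
  obtain ⟨i, hi, hmin⟩ := Finset.exists_min_image (Finset.range m) W ⟨0, Finset.mem_range.mpr hm⟩
  have hi' := Finset.mem_range.mp hi
  have hWs : W i ≤ s * (L / m * R) := by
    obtain ⟨i', hi', h⟩ := hthin g
    exact (hmin i' (Finset.mem_range.mpr hi')).trans h
  have hWavg : (m : ℝ) * W i ≤ ∑ i ∈ Finset.range m, W i := by
    have := Finset.card_nsmul_le_sum (Finset.range m) W (W i) hmin
    rwa [Finset.card_range, nsmul_eq_mul] at this
  let B := Finset.univ.filter (fun l : Fin (m * k) => l.val / k = i)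
  have hA'0 : 0 < t * (w * R') := by positivity
  let V : Fin (m * k) → ℝ := fun l => (∑ c ∈ Finset.range q, o l.val c) / (t * (w * R'))
  let P : Fin (m * k) → Fin q → Prop := fun l c => t * (w * R') < o l.val c.val
  have hcount := count_choices (N := m * k) (q := q) (k := k) hk P V (by
      intro l
      rw [le_div_iff₀ hA'0]
      calc ((Finset.univ.filter (fun c => P l c)).card : ℝ) * (t * (w * R'))
          = ∑ _c ∈ Finset.univ.filter (fun c => P l c), t * (w * R') := by
            rw [Finset.sum_const, nsmul_eq_mul]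
        _ ≤ ∑ c ∈ Finset.univ.filter (fun c => P l c), o l.val c.val :=
            Finset.sum_le_sum fun c hc => (Finset.mem_filter.mp hc).2.le
        _ ≤ ∑ c : Fin q, o l.val c.val :=
            Finset.sum_le_sum_of_subset_of_nonneg (Finset.subset_univ _)
              (fun c _ _ => occ_nonneg _ _ _)
        _ = ∑ c ∈ Finset.range q, o l.val c := Fin.sum_univ_eq_sum_range (fun c => o l.val c) q)
    B (card_block hk hi') (r := W i / (L / m * R) / t) (by
      have h1 : ∑ l ∈ B, V l = W i / (t * (w * R')) := by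
        have h2 := sum_block hk hi' (fun l => (∑ c ∈ Finset.range q, o l c) / (t * (w * R')))
        rw [show ∑ l ∈ B, V l = _ from h2, ← Finset.sum_div, ← hWsum]
      rw [h1, hLm]
      refine le_of_eq ?_
      rw [hRq]
      field_simp)
  have hfilter : (Finset.univ.filter (fun S : Fin (m * k) → Fin q => ∀ l : Fin (m * k),
      t * (w * R') < occ X g (rc (-(L / 2) + l.val * w) w
        (y (l.val / k) + (S l).val * R') R'))) =
      Finset.univ.filter (fun S : Fin (m * k) → Fin q => ∀ l, P l (S l)) := by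
    ext S
    simp only [Finset.mem_filter, P, o]
  rw [hfilter]
  refine hcount.trans ?_
  rw [mul_assoc]
  refine mul_le_mul_of_nonneg_left ?_ (by positivity)
  have hwi0 : 0 ≤ W i / (L / m * R) := div_nonneg (hW0 i) (by positivity)
  have hwis : W i / (L / m * R) ≤ s := by
    rw [div_le_iff₀ (by positivity)]
    exact hWs
  obtain ⟨k', rfl⟩ : ∃ k', k = k' + 1 := ⟨k - 1, by omega⟩
  rw [pow_succ, Nat.add_sub_cancel]
  have h1 : (W i / (L / m * R) / t) ^ k' ≤ (s / t) ^ k' := by
    refine pow_le_pow_left₀ (by positivity) ?_ _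
    gcongr
  have h2 : W i / (L / m * R) ≤ 1 / (L * R) * ∑ i ∈ Finset.range m, W i := by
    have : W i / (L / m * R) = 1 / (L * R) * (m * W i) := by field_simp
    rw [this]
    exact mul_le_mul_of_nonneg_left hWavg (by positivity)
  calc (W i / (L / m * R) / t) ^ k' * (W i / (L / m * R) / t)
      ≤ (s / t) ^ k' * ((1 / (L * R) * ∑ i ∈ Finset.range m, W i) / t) := by
        refine mul_le_mul h1 ?_ (by positivity) (by positivity)
        gcongr
    _ = _ := by ring

/-- total measure of the bad rigid motions, summed over all choices -/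
lemma sum_bad {X : Set ℂ} (hX : MeasurableSet X) {ε : ℝ}
    (hε : volume X ≤ ENNReal.ofReal ε) {s L R t w R' : ℝ}
    (hL : 0 < L) (hR : 0 < R) (hs : 0 ≤ s) (ht : 0 < t) {m k q : ℕ} (hm : 1 ≤ m) (hk : 1 ≤ k)
    (hq : 1 ≤ q) (hw : w = L / (m * k)) (hR' : R' = R / q)
    {y : ℕ → ℝ} (hthin : Thin X s L m y R) {α β : ℝ} (hαβ : α ≤ β) :
    ∑ S : Fin (m * k) → Fin q, muG α β {g | ∀ l : Fin (m * k),
      t * (w * R') < occ X g (rc (-(L / 2) + l.val * w) w
        (y (l.val / k) + (S l).val * R') R')} ≤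
    ENNReal.ofReal ((q : ℝ) ^ (m * k) * ((β - α) * ε * ((1 / t) * (s / t) ^ (k - 1)))) := by
  classical
  have hfin : volume X ≠ ⊤ := ne_top_of_le_ne_top ENNReal.ofReal_ne_top hε
  have hm' : (0 : ℝ) < m := by exact_mod_cast hm
  let Bad : (Fin (m * k) → Fin q) → Set (ℝ × ℂ) := fun S => {g | ∀ l : Fin (m * k),
      t * (w * R') < occ X g (rc (-(L / 2) + l.val * w) w
        (y (l.val / k) + (S l).val * R') R')}
  have hBad : ∀ S, MeasurableSet (Bad S) := by
    intro S
    have : Bad S = ⋂ l : Fin (m * k), {g | t * (w * R') <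
        occ X g (rc (-(L / 2) + l.val * w) w
        (y (l.val / k) + (S l).val * R') R')} := by
      ext g; simp [Bad]
    rw [this]
    refine MeasurableSet.iInter fun l => ?_
    refine measurableSet_lt measurable_const ?_
    exact (measurable_occ hX (measurableSet_rc _ _ _ _)).ennreal_toReal
  have h1 : ∑ S, muG α β (Bad S) = ∫⁻ g, ∑ S, (Bad S).indicator (fun _ => (1 : ENNReal)) g
      ∂(muG α β) := by
    rw [lintegral_finsetSum _ (fun S _ => measurable_const.indicator (hBad S))]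
    refine Finset.sum_congr rfl fun S _ => ?_
    rw [lintegral_indicator (hBad S), setLIntegral_const, one_mul]
  let c : ℝ := (q : ℝ) ^ (m * k) * ((1 / t) * (s / t) ^ (k - 1)) * (1 / (L * R))
  have hc : 0 ≤ c := by positivity
  have h2 : ∀ g, ∑ S, (Bad S).indicator (fun _ => (1 : ENNReal)) g ≤
      ENNReal.ofReal c * ∑ i ∈ Finset.range m,
        volume (rc (-(L / 2) + i * (L / m)) (L / m) (y i) R ∩ mv g ⁻¹' X) := by
    intro g
    have h3 : ∑ S, (Bad S).indicator (fun _ => (1 : ENNReal)) g =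
        ((Finset.univ.filter (fun S => g ∈ Bad S)).card : ENNReal) := by
      rw [Finset.card_filter, Nat.cast_sum]
      refine Finset.sum_congr rfl fun S _ => ?_
      by_cases h : g ∈ Bad S <;> simp [h]
    have h4 := count_motion hX hfin hL hR hs ht hm hk hq hw hR' hthin g
    rw [h3, ← ENNReal.ofReal_natCast]
    have h5 : ENNReal.ofReal (c * ∑ i ∈ Finset.range m,
          occ X g (rc (-(L / 2) + i * (L / m)) (L / m) (y i) R)) =
        ENNReal.ofReal c * ∑ i ∈ Finset.range m,
        volume (rc (-(L / 2) + i * (L / m)) (L / m) (y i) R ∩ mv g ⁻¹' X) := by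
      rw [ENNReal.ofReal_mul hc, ENNReal.ofReal_sum_of_nonneg (fun i _ => occ_nonneg _ _ _)]
      congr 1
      refine Finset.sum_congr rfl fun i _ => ?_
      unfold occ
      rw [measureReal_def, ENNReal.ofReal_toReal (occ_finite hX hfin g _)]
    rw [← h5]
    refine ENNReal.ofReal_le_ofReal (h4.trans (le_of_eq ?_))
    simp only [c]
    ring
  have h6 : ∑ S, muG α β (Bad S) ≤ ENNReal.ofReal c * ∑ i ∈ Finset.range m,
      (ENNReal.ofReal (β - α) * (ENNReal.ofReal (L / m * R) * ENNReal.ofReal ε)) := by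
    rw [h1]
    refine (lintegral_mono h2).trans ?_
    rw [lintegral_const_mul _ (Finset.measurable_sum _ fun i _ =>
      measurable_occ hX (measurableSet_rc _ _ _ _)),
      lintegral_finsetSum _ (fun i _ => measurable_occ hX (measurableSet_rc _ _ _ _))]
    refine mul_le_mul_right (Finset.sum_le_sum fun i _ => ?_) _
    rw [lintegral_muG hX (measurableSet_rc _ _ _ _), volume_rc (by positivity) hR.le]
    gcongr
  refine h6.trans (le_of_eq ?_)
  rw [Finset.sum_const, Finset.card_range, nsmul_eq_mul, ← ENNReal.ofReal_natCast,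
    ← ENNReal.ofReal_mul (by positivity), ← ENNReal.ofReal_mul (by linarith),
    ← ENNReal.ofReal_mul (by positivity), ← ENNReal.ofReal_mul hc]
  congr 1
  simp only [c]
  field_simp


lemma mv_near (g g' : ℝ × ℂ) (z : ℂ) :
    ‖mv g z - mv g' z‖ ≤ |g.1 - g'.1| * ‖z‖ + ‖g.2 - g'.2‖ := by
  have e : mv g z - mv g' z = Complex.exp (Complex.I * g'.1) *
      ((Complex.exp (Complex.I * ((g.1 - g'.1 : ℝ) : ℂ)) - 1) * z) + (g.2 - g'.2) := by
    have h1 : Complex.exp (Complex.I * g'.1) * Complex.exp (Complex.I * ((g.1 - g'.1 : ℝ) : ℂ)) =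
        Complex.exp (Complex.I * g.1) := by
      rw [← Complex.exp_add]
      congr 1
      push_cast
      ring
    unfold mv
    rw [← h1]
    ring
  rw [e]
  refine (norm_add_le _ _).trans ?_
  rw [norm_mul, norm_rot, one_mul, norm_mul]
  have h2 : ‖Complex.exp (Complex.I * ((g.1 - g'.1 : ℝ) : ℂ)) - 1‖ ≤ ‖g.1 - g'.1‖ :=
    Real.norm_exp_I_mul_ofReal_sub_one_le
  rw [Real.norm_eq_abs] at h2
  have := mul_le_mul_of_nonneg_right h2 (norm_nonneg z)
  linarith

lemma occ_periodic (X A : Set ℂ) (θ : ℝ) (v : ℂ) (n : ℤ) :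
    occ X (θ - n * (2 * Real.pi), v) A = occ X (θ, v) A := by
  have : mv (θ - n * (2 * Real.pi), v) = mv (θ, v) := by
    funext z
    unfold mv
    simp only
    have h1 : Complex.I * ((θ - n * (2 * Real.pi) : ℝ) : ℂ) =
        Complex.I * θ - n * (2 * Real.pi * Complex.I) := by
      push_cast; ring
    rw [h1, Complex.exp_sub, Complex.exp_int_mul_two_pi_mul_I, div_one]
  unfold occ
  rw [this]

/-- **One step of the construction.** -/
theorem step {X : Set ℂ} (hX : MeasurableSet X) {ε : ℝ} (hε0 : 0 ≤ ε)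
    (hε : volume X ≤ ENNReal.ofReal ε) {L R0 ρ : ℝ} (hL : 0 < L)
    (hρ : ∀ z : ℂ, |z.re| ≤ L / 2 → 0 ≤ z.im → z.im ≤ R0 → ‖z‖ ≤ ρ)
    {m : ℕ} (hm : 1 ≤ m) {y : ℕ → ℝ} {R s : ℝ} (hR : 0 < R) (hs : 0 ≤ s)
    (hthin : Thin X s L m y R) (hy : ∀ i < m, 0 ≤ y i ∧ y i + R ≤ R0)
    {k q : ℕ} (hk : 1 ≤ k) (hq : 1 ≤ q) {t κ d dθ dv τ w R' : ℝ}
    (hw : w = L / (m * k)) (hR' : R' = R / q)
    (ht : 0 < t) (hdθ : 0 < dθ) (hdv : 0 < dv)
    (hd : dθ * ρ + dv ≤ d) (hdw : 2 * d ≤ w) (hdR : 2 * d ≤ R')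
    (hκ : 2 * d * (w + R') ≤ κ * (w * R'))
    (hτ : τ < 1)
    (hF : (2 * Real.pi + 2 * dθ) * ε * ((1 / t) * (s / t) ^ (k - 1)) <
      τ * (2 * dθ * (Real.pi * dv ^ 2))) :
    ∃ y' : ℕ → ℝ, Thin X (t + κ) L (m * k) y' R' ∧
      (∀ l < m * k, 0 ≤ y' l ∧ y' l + R' ≤ R0) ∧
      TV (m * k) y' ≤ TV m y + (m * k) * R / (3 * (1 - τ)) := by
  classical
  have hm' : (0 : ℝ) < m := by exact_mod_cast hm
  have hk' : (0 : ℝ) < k := by exact_mod_cast hk
  have hq' : (0 : ℝ) < q := by exact_mod_cast hq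
  have hw0 : 0 < w := by rw [hw]; positivity
  have hR'0 : 0 < R' := by rw [hR']; positivity
  have hRq : (q : ℝ) * R' = R := by rw [hR']; field_simp
  have hρ0 : 0 ≤ ρ := by
    refine (norm_nonneg (0 : ℂ)).trans (hρ 0 ?_ ?_ ?_)
    · simp; positivity
    · simp
    · obtain ⟨h1, h2⟩ := hy 0 (by omega)
      simp; linarith
  have hd0 : 0 ≤ d := le_trans (by positivity) hd
  have hpi := Real.pi_pos
  set α := -dθ with hα
  set β := 2 * Real.pi + dθ with hβ
  have hαβ : α ≤ β := by rw [hα, hβ]; linarith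
  let Bad : (Fin (m * k) → Fin q) → Set (ℝ × ℂ) := fun S => {g | ∀ l : Fin (m * k),
      t * (w * R') < occ X g (rc (-(L / 2) + l.val * w) w
        (y (l.val / k) + (S l).val * R') R')}
  have hsum : ∑ S, muG α β (Bad S) ≤ ENNReal.ofReal ((q : ℝ) ^ (m * k) *
      ((β - α) * ε * ((1 / t) * (s / t) ^ (k - 1)))) :=
    sum_bad hX hε hL hR hs ht hm hk hq hw hR' hthin hαβ
  have hlt : ∀ S, muG α β (Bad S) ≠ ⊤ := by
    intro S
    refine ne_top_of_le_ne_top ENNReal.ofReal_ne_top ((Finset.single_le_sum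
      (f := fun S => muG α β (Bad S)) (fun S _ => zero_le) (Finset.mem_univ S)).trans hsum)
  set F := (2 * Real.pi + 2 * dθ) * ε * ((1 / t) * (s / t) ^ (k - 1)) with hFdef
  have hF0 : 0 ≤ F := by rw [hFdef]; positivity
  set v0 := 2 * dθ * (Real.pi * dv ^ 2) with hv0
  have hv0pos : 0 < v0 := by positivity
  set B := (m * k : ℝ) * R / (3 * (1 - τ)) with hB
  have h1τ : 0 < 1 - τ := by linarith
  have hBpos : 0 < B := by positivity
  have hqN : (0 : ℝ) < (q : ℝ) ^ (m * k) := by positivity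
  have hsumr : ∑ S, (muG α β (Bad S)).toReal ≤ (q : ℝ) ^ (m * k) * F := by
    rw [← ENNReal.toReal_sum (fun S _ => hlt S)]
    have : (β - α) * ε * ((1 / t) * (s / t) ^ (k - 1)) = F := by
      rw [hα, hβ, hFdef]; ring
    rw [this] at hsum
    calc (∑ S, muG α β (Bad S)).toReal ≤ (ENNReal.ofReal ((q : ℝ) ^ (m * k) * F)).toReal :=
          ENNReal.toReal_mono ENNReal.ofReal_ne_top hsum
      _ = (q : ℝ) ^ (m * k) * F := ENNReal.toReal_ofReal (by positivity)
  have : Nonempty (Fin (m * k) → Fin q) := ⟨fun _ => ⟨0, hq⟩⟩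
  have hN1 : ((m * k - 1 : ℕ) : ℝ) ≤ m * k := by
    have : ((m * k - 1 : ℕ) : ℝ) ≤ ((m * k : ℕ) : ℝ) := by exact_mod_cast Nat.sub_le _ _
    rwa [Nat.cast_mul] at this
  obtain ⟨S, hS1, hS2⟩ := exists_choice (fun S => (muG α β (Bad S)).toReal)
    (fun S : Fin (m * k) → Fin q => jump S * R') (v := v0) (B := B)
    (fun S => ENNReal.toReal_nonneg) (fun S => mul_nonneg (jump_nonneg S) hR'0.le) hv0pos hBpos
    (by
      have h1 : (∑ S, (muG α β (Bad S)).toReal) / v0 < (q : ℝ) ^ (m * k) * τ := by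
        rw [div_lt_iff₀ hv0pos]
        calc ∑ S, (muG α β (Bad S)).toReal ≤ (q : ℝ) ^ (m * k) * F := hsumr
          _ < (q : ℝ) ^ (m * k) * (τ * v0) := by gcongr
          _ = _ := by ring
      have h2 : (∑ S : Fin (m * k) → Fin q, jump S * R') / B ≤ (q : ℝ) ^ (m * k) * (1 - τ) := by
        rw [div_le_iff₀ hBpos, ← Finset.sum_mul]
        calc (∑ S : Fin (m * k) → Fin q, jump S) * R'
            ≤ ((q : ℝ) ^ (m * k) * ((m * k - 1 : ℕ) * q / 3)) * R' :=
              mul_le_mul_of_nonneg_right (sum_jump hq) hR'0.le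
          _ = (q : ℝ) ^ (m * k) * (((m * k - 1 : ℕ) : ℝ) * (q * R') / 3) := by ring
          _ = (q : ℝ) ^ (m * k) * (((m * k - 1 : ℕ) : ℝ) * R / 3) := by rw [hRq]
          _ ≤ (q : ℝ) ^ (m * k) * ((m * k : ℝ) * R / 3) := by gcongr
          _ = (q : ℝ) ^ (m * k) * (1 - τ) * B := by rw [hB]; field_simp
      have h3 : (Fintype.card (Fin (m * k) → Fin q) : ℝ) = (q : ℝ) ^ (m * k) := by
        rw [Fintype.card_fun, Fintype.card_fin, Fintype.card_fin]
        push_cast
        ring
      rw [h3]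
      linarith)
  refine ⟨refine' k y R' S, ?_, ?_, ?_⟩
  · -- thinness
    by_contra hcon
    unfold Thin at hcon
    push Not at hcon
    obtain ⟨⟨θ, v⟩, hg⟩ := hcon
    -- reduce the angle
    set n : ℤ := ⌊θ / (2 * Real.pi)⌋ with hn
    set θ0 := θ - n * (2 * Real.pi) with hθ0
    have h2pi : (0 : ℝ) < 2 * Real.pi := by positivity
    have hθ0a : 0 ≤ θ0 := by
      have := Int.floor_le (θ / (2 * Real.pi))
      rw [le_div_iff₀ h2pi] at this
      rw [hθ0]; linarith
    have hθ0b : θ0 ≤ 2 * Real.pi := by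
      have := (Int.lt_floor_add_one (θ / (2 * Real.pi))).le
      rw [div_le_iff₀ h2pi] at this
      rw [hθ0]
      linarith
    have hsubset : Icc (θ0 - dθ) (θ0 + dθ) ×ˢ Metric.ball v dv ⊆ Bad S := by
      rintro ⟨θ', v'⟩ ⟨hθ', hv'⟩ l
      have hl := hg l.val l.isLt
      have hcast : ((m * k : ℕ) : ℝ) = m * k := by push_cast; ring
      rw [hcast, ← hw, ← occ_periodic X _ θ v n, ← hθ0] at hl
      have hy' : refine' k y R' S l.val = y (l.val / k) + (S l).val * R' := by
        unfold refine'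
        rw [dif_pos l.isLt]
      rw [hy'] at hl
      have hlk : l.val / k < m :=
        Nat.div_lt_of_lt_mul (Nat.lt_of_lt_of_eq l.isLt (Nat.mul_comm m k))
      obtain ⟨hy1, hy2⟩ := hy _ hlk
      have hSl : ((S l).val : ℝ) + 1 ≤ q := by exact_mod_cast (S l).isLt
      have hlN : ((l.val : ℝ) + 1) * w ≤ L := by
        have h1 : ((l.val : ℝ) + 1) ≤ m * k := by
          have := l.isLt
          have h2 : l.val + 1 ≤ m * k := this
          exact_mod_cast h2
        calc ((l.val : ℝ) + 1) * w ≤ (m * k) * w := by gcongr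
          _ = L := by rw [hw]; field_simp
      have hnear : ∀ z ∈ rc (-(L / 2) + l.val * w) w (y (l.val / k) + (S l).val * R') R',
          ‖mv (θ0, v) z - mv (θ', v') z‖ ≤ d := by
        intro z hz
        rw [mem_rc] at hz
        obtain ⟨⟨z1, z2⟩, ⟨z3, z4⟩⟩ := hz
        have hlw : 0 ≤ (l.val : ℝ) * w := by positivity
        have hSR : 0 ≤ ((S l).val : ℝ) * R' := by positivity
        have hzn : ‖z‖ ≤ ρ := by
          refine hρ z (abs_le.mpr ⟨by linarith, by linarith⟩) (by linarith) ?_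
          have : ((S l).val : ℝ) * R' + R' ≤ R := by
            calc ((S l).val : ℝ) * R' + R' = (((S l).val : ℝ) + 1) * R' := by ring
              _ ≤ q * R' := by gcongr
              _ = R := hRq
          linarith
        refine (mv_near _ _ z).trans ?_
        have e1 : |(θ0, v).1 - (θ', v').1| ≤ dθ := by
          show |θ0 - θ'| ≤ dθ
          rw [abs_le]
          constructor <;> linarith [hθ'.1, hθ'.2]
        have e2 : ‖(θ0, v).2 - (θ', v').2‖ ≤ dv := by
          show ‖v - v'‖ ≤ dv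
          rw [Metric.mem_ball, dist_eq_norm, norm_sub_rev] at hv'
          exact hv'.le
        calc |(θ0, v).1 - (θ', v').1| * ‖z‖ + ‖(θ0, v).2 - (θ', v').2‖
            ≤ dθ * ρ + dv := by gcongr
          _ ≤ d := hd
      have h5 := occ_near hX (θ0, v) (θ', v') hd0 hdw hdR hnear
      have h6 : (t + κ) * (w * R') = t * (w * R') + κ * (w * R') := by ring
      show t * (w * R') < _
      linarith
    have hmeas : ENNReal.ofReal v0 ≤ muG α β (Bad S) := by
      refine le_trans ?_ (measure_mono hsubset)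
      unfold muG
      rw [Measure.prod_prod, Measure.restrict_apply measurableSet_Icc,
        Set.inter_eq_left.mpr (Icc_subset_Icc (by rw [hα]; linarith) (by rw [hβ]; linarith)),
        Real.volume_Icc, Complex.volume_ball]
      have e1 : θ0 + dθ - (θ0 - dθ) = 2 * dθ := by ring
      have e2 : (NNReal.pi : ENNReal) = ENNReal.ofReal Real.pi := by
        rw [ENNReal.ofReal, ← NNReal.coe_real_pi, Real.toNNReal_coe]
      rw [e1, e2, ← ENNReal.ofReal_pow hdv.le, ← ENNReal.ofReal_mul (by positivity),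
        ← ENNReal.ofReal_mul (by positivity), hv0]
      refine ENNReal.ofReal_le_ofReal (le_of_eq ?_)
      ring
    have : v0 ≤ (muG α β (Bad S)).toReal := by
      have := ENNReal.toReal_mono (hlt S) hmeas
      rwa [ENNReal.toReal_ofReal hv0pos.le] at this
    linarith
  · intro l hl
    have hlk : l / k < m := Nat.div_lt_of_lt_mul (by rwa [mul_comm] at hl)
    obtain ⟨hy1, hy2⟩ := hy _ hlk
    unfold refine'
    rw [dif_pos hl]
    have hSl : ((S ⟨l, hl⟩).val : ℝ) + 1 ≤ q := by exact_mod_cast (S ⟨l, hl⟩).isLt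
    have hSR : 0 ≤ ((S ⟨l, hl⟩).val : ℝ) * R' := by positivity
    refine ⟨by linarith, ?_⟩
    have : ((S ⟨l, hl⟩).val : ℝ) * R' + R' ≤ R := by
      calc ((S ⟨l, hl⟩).val : ℝ) * R' + R' = (((S ⟨l, hl⟩).val : ℝ) + 1) * R' := by ring
        _ ≤ q * R' := by gcongr
        _ = R := hRq
    linarith
  · have h1 := tv_refine' hm hk y hR'0.le S
    have h2 : jump S * R' ≤ B := hS2.le
    linarith

end Pool.Agent.helper17.Worm
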