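import Mathlib
import Pool.Agent.helper17.WormStep

set_option autoImplicit false

/-!
The multiscale construction and the lower bound for open sets.
-/

namespace Pool.Agent.helper17.Worm

open MeasureTheory Set

/-- number of blocks at stage `j` -/
def mS : ℕ → ℕ
  | 0 => 57
  | (j + 1) => mS j * (4800 * 16 ^ j)

/-- thickness at stage `j` -/
noncomputable def RS : ℕ → ℝ
  | 0 => 1 / 4000000
  | (j + 1) => RS j / (2457600 * 16 ^ j : ℕ)

/-- deficiency at stage `j` -/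
noncomputable def uS (j : ℕ) : ℝ := (1 / 32) * (1 / 8) ^ j

lemma mS_pos (j : ℕ) : 1 ≤ mS j := by
  induction j with
  | zero => simp [mS]
  | succ j ih =>
    rw [mS]
    exact Nat.mul_pos ih (by positivity)

lemma RS_pos (j : ℕ) : 0 < RS j := by
  induction j with
  | zero => norm_num [RS]
  | succ j ih =>
    rw [RS]
    positivity

lemma RS_le (j : ℕ) : RS j ≤ (1 / 2) ^ j := by
  induction j with
  | zero => norm_num [RS]
  | succ j ih =>
    rw [RS]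
    have h1 : (2 : ℝ) ≤ ((2457600 * 16 ^ j : ℕ) : ℝ) := by
      push_cast
      have : (1 : ℝ) ≤ 16 ^ j := one_le_pow₀ (by norm_num)
      linarith
    rw [div_le_iff₀ (by positivity), pow_succ]
    have h2 : (0 : ℝ) < (1 / 2) ^ j := by positivity
    nlinarith

lemma uS_pos (j : ℕ) : 0 < uS j := by unfold uS; positivity

lemma uS_le (j : ℕ) : uS j ≤ 1 / 32 := by
  unfold uS
  have : ((1 : ℝ) / 8) ^ j ≤ 1 := pow_le_one₀ (by norm_num) (by norm_num)
  linarith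

lemma uS_succ (j : ℕ) : uS (j + 1) = uS j / 8 := by unfold uS; rw [pow_succ]; ring

/-- the length budget used at stage `j` -/
lemma budget (j : ℕ) : (mS j : ℝ) * (4800 * 16 ^ j : ℕ) * RS j = 57 * 4800 / 4000000 / 32 ^ j := by
  induction j with
  | zero => norm_num [mS, RS]
  | succ j ih =>
    rw [mS, RS]
    have h1 : (0 : ℝ) < (4800 * 16 ^ j : ℕ) := by positivity
    have h2 : ((4800 * 16 ^ (j + 1) : ℕ) : ℝ) = 16 * ((4800 * 16 ^ j : ℕ) : ℝ) := by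
      push_cast; ring
    have h3 : ((2457600 * 16 ^ j : ℕ) : ℝ) = 512 * ((4800 * 16 ^ j : ℕ) : ℝ) := by
      push_cast; ring
    rw [h2, h3, Nat.cast_mul]
    have : (mS j : ℝ) * (4800 * 16 ^ j : ℕ) * (16 * ((4800 * 16 ^ j : ℕ) : ℝ)) *
        (RS j / (512 * ((4800 * 16 ^ j : ℕ) : ℝ))) =
        ((mS j : ℝ) * (4800 * 16 ^ j : ℕ) * RS j) / 32 := by
      field_simp
      ring
    rw [this, ih, pow_succ]
    ring

lemma small_scale (j : ℕ) : (1 / 2 : ℝ) ^ (160 * 2 ^ j) ≤ (uS j / 8 * RS (j + 1)) ^ 3 := by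
  induction j with
  | zero => norm_num [uS, RS]
  | succ j ih =>
    have h1 : uS (j + 1) / 8 * RS (j + 1 + 1) =
        (uS j / 8 * RS (j + 1)) / (8 * (2457600 * 16 ^ (j + 1) : ℕ)) := by
      rw [uS_succ, RS]
      field_simp
    rw [h1]
    have h1' : ((uS j / 8 * RS (j + 1)) / (8 * (2457600 * 16 ^ (j + 1) : ℕ))) ^ 3 =
        (uS j / 8 * RS (j + 1)) ^ 3 / (8 * ((2457600 * 16 ^ (j + 1) : ℕ) : ℝ)) ^ 3 := div_pow _ _ _
    rw [h1', le_div_iff₀ (by positivity)]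
    have h2 : (8 * ((2457600 * 16 ^ (j + 1) : ℕ) : ℝ)) ^ 3 ≤ 2 ^ (160 * 2 ^ j) := by
      have h3 : (8 * ((2457600 * 16 ^ (j + 1) : ℕ) : ℝ)) ≤ 2 ^ (29 + 4 * j) := by
        push_cast
        have : (2 : ℝ) ^ (29 + 4 * j) = 2 ^ 29 * 16 ^ j := by
          rw [pow_add, pow_mul]; norm_num
        rw [this, pow_succ]
        have h5 : (0 : ℝ) < 16 ^ j := by positivity
        nlinarith
      calc (8 * ((2457600 * 16 ^ (j + 1) : ℕ) : ℝ)) ^ 3 ≤ (2 ^ (29 + 4 * j)) ^ 3 := by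
            gcongr
        _ = (2 : ℝ) ^ (87 + 12 * j) := by rw [← pow_mul]; congr 1; ring
        _ ≤ 2 ^ (160 * 2 ^ j) := by
            apply pow_le_pow_right₀ (by norm_num)
            have : j + 1 ≤ 2 ^ j := Nat.lt_two_pow_self
            omega
    have h4 : (1 / 2 : ℝ) ^ (160 * 2 ^ (j + 1)) =
        (1 / 2) ^ (160 * 2 ^ j) * (1 / 2) ^ (160 * 2 ^ j) := by
      rw [← pow_add]; congr 1; ring
    rw [h4]
    have h5 : (0 : ℝ) < (1 / 2) ^ (160 * 2 ^ j) := by positivity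
    calc (1 / 2 : ℝ) ^ (160 * 2 ^ j) * (1 / 2) ^ (160 * 2 ^ j) *
          (8 * ((2457600 * 16 ^ (j + 1) : ℕ) : ℝ)) ^ 3
        ≤ (1 / 2 : ℝ) ^ (160 * 2 ^ j) * (1 / 2) ^ (160 * 2 ^ j) * 2 ^ (160 * 2 ^ j) := by
          gcongr
      _ = (1 / 2 : ℝ) ^ (160 * 2 ^ j) := by
          rw [mul_assoc, ← mul_pow]; norm_num
      _ ≤ _ := ih

lemma ratio_pow (j : ℕ) :
    ((1 - uS j) / (1 - uS j / 4)) ^ (4800 * 16 ^ j - 1) ≤ (1 / 2 : ℝ) ^ (160 * 2 ^ j) := by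
  have hu := uS_pos j
  have hu2 := uS_le j
  have h1 : (1 - uS j) / (1 - uS j / 4) ≤ Real.exp (-(3 / 4 * uS j)) := by
    have h2 : (1 - uS j) / (1 - uS j / 4) ≤ 1 - 3 / 4 * uS j := by
      rw [div_le_iff₀ (by linarith)]
      nlinarith
    have h3 := Real.add_one_le_exp (-(3 / 4 * uS j))
    linarith
  have h0 : 0 ≤ (1 - uS j) / (1 - uS j / 4) := div_nonneg (by linarith) (by linarith)
  have h4 : ((1 - uS j) / (1 - uS j / 4)) ^ (4800 * 16 ^ j - 1) ≤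
      Real.exp (-(3 / 4 * uS j) * ((4800 * 16 ^ j - 1 : ℕ) : ℝ)) := by
    calc ((1 - uS j) / (1 - uS j / 4)) ^ (4800 * 16 ^ j - 1)
        ≤ Real.exp (-(3 / 4 * uS j)) ^ (4800 * 16 ^ j - 1) := pow_le_pow_left₀ h0 h1 _
      _ = _ := by rw [← Real.exp_nat_mul]; congr 1; ring
  refine h4.trans ?_
  have h5 : (1 / 2 : ℝ) ^ (160 * 2 ^ j) = Real.exp (-(Real.log 2) * (160 * 2 ^ j)) := by
    have : (1 / 2 : ℝ) = Real.exp (-(Real.log 2)) := by
      rw [Real.exp_neg, Real.exp_log (by norm_num)]; norm_num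
    rw [this, ← Real.exp_nat_mul]
    congr 1
    push_cast
    ring
  rw [h5]
  apply Real.exp_le_exp.mpr
  have h6 : (1 : ℕ) ≤ 4800 * 16 ^ j := Nat.mul_pos (by norm_num) (by positivity)
  rw [Nat.cast_sub h6]
  push_cast
  have h7 : uS j * (4800 * 16 ^ j - 1) ≥ (4799 / 32) * 2 ^ j := by
    unfold uS
    have e1 : ((1 : ℝ) / 8) ^ j * 16 ^ j = 2 ^ j := by
      rw [← mul_pow]; norm_num
    have e2 : ((1 : ℝ) / 8) ^ j ≤ 1 := pow_le_one₀ (by norm_num) (by norm_num)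
    have e3 : (1 : ℝ) ≤ 2 ^ j := one_le_pow₀ (by norm_num)
    have e4 : 1 / 32 * ((1 : ℝ) / 8) ^ j * (4800 * 16 ^ j - 1) =
        1 / 32 * (4800 * (((1 : ℝ) / 8) ^ j * 16 ^ j) - (1 / 8) ^ j) := by ring
    rw [e4, e1]
    linarith
  have hlog := Real.log_two_lt_d9
  have h8 : (0 : ℝ) < 2 ^ j := by positivity
  nlinarith

end Pool.Agent.helper17.Worm
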