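import Mathlib
import Pool.Agent.helper17.WormMain

set_option autoImplicit false

/-!
The multiscale construction: all stages, and the lower bound for open covers.
-/

namespace Pool.Agent.helper17.Worm

open MeasureTheory Set

lemma rho_bound (z : ℂ) (h1 : |z.re| ≤ (12 / 25 : ℝ) / 2) (h2 : 0 ≤ z.im) (h3 : z.im ≤ 1 / 40) :
    ‖z‖ ≤ 1 / 4 := by
  rw [Complex.norm_def, Complex.normSq_apply]
  apply Real.sqrt_le_iff.mpr
  refine ⟨by norm_num, ?_⟩
  have h4 : z.re * z.re ≤ (6 / 25) * (6 / 25) := by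
    have := abs_le.mp h1
    nlinarith [this.1, this.2]
  nlinarith

theorem stage_zero {X : Set ℂ} (hX : MeasurableSet X)
    (hε : volume X ≤ ENNReal.ofReal (1 / 250)) :
    ∃ y : ℕ → ℝ, Thin X (1 - uS 0) (12 / 25) (mS 0) y (RS 0) ∧
      (∀ l < mS 0, 0 ≤ y l ∧ y l + RS 0 ≤ 1 / 40) ∧
      TV (mS 0) y ≤ 4799 / 10000 := by
  have hfin : volume X ≠ ⊤ := ne_top_of_le_ne_top ENNReal.ofReal_ne_top hε
  have hXr : volume.real X ≤ 1 / 250 := by
    rw [measureReal_def]
    have := ENNReal.toReal_mono ENNReal.ofReal_ne_top hε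
    rwa [ENNReal.toReal_ofReal (by norm_num)] at this
  obtain ⟨y, h1, h2, h3⟩ := step (X := X) hX (ε := 1 / 250) (by norm_num) hε (L := 12 / 25)
    (R0 := 1 / 40) (ρ := 1 / 4) (by norm_num) rho_bound (m := 1) le_rfl (y := fun _ => 0)
    (R := 1 / 40) (s := 1 / 3) (by norm_num) (by norm_num)
    (by
      intro g
      refine ⟨0, by norm_num, (occ_le hX hfin g _).trans (hXr.trans ?_)⟩
      norm_num)
    (by
      intro i _
      exact ⟨le_rfl, by norm_num⟩)
    (k := 57) (q := 100000) (by norm_num) (by norm_num) (t := 15 / 16) (κ := 1 / 32)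
    (d := 1 / 260000000) (dθ := 4 / 3 * (1 / 260000000)) (dv := 2 / 3 * (1 / 260000000))
    (τ := 1 / 100) (w := 12 / 25 / ((1 : ℕ) * (57 : ℕ))) (R' := 1 / 40 / (100000 : ℕ)) rfl rfl
    (by norm_num) (by norm_num) (by norm_num) (by norm_num) (by norm_num) (by norm_num)
    (by norm_num) (by norm_num)
    (by
      have hpi := Real.pi_gt_three
      set F1 : ℝ := (1 / (15 / 16 : ℝ)) * (1 / 3 / (15 / 16)) ^ (57 - 1) with hF1
      have e2 : F1 ≤
          (1 / 100) * (2 * (4 / 3 * (1 / 260000000)) * ((2 / 3 * (1 / 260000000)) ^ 2)) / (1/250) /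
          (202/100) := by
        rw [hF1]
        norm_num
      have e3 : 0 < F1 := by rw [hF1]; positivity
      have e1 : 2 * Real.pi + 2 * (4 / 3 * (1 / 260000000)) < Real.pi * (202 / 100) := by
        nlinarith
      calc (2 * Real.pi + 2 * (4 / 3 * (1 / 260000000))) * (1 / 250) * F1
          < Real.pi * (202 / 100) * (1 / 250) * F1 := by gcongr
        _ ≤ Real.pi * (202 / 100) * (1 / 250) *
            ((1 / 100) * (2 * (4 / 3 * (1 / 260000000)) *
            ((2 / 3 * (1 / 260000000)) ^ 2)) / (1/250) / (202/100)) := by gcongr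
        _ = _ := by ring)
  have e0 : (mS 0 : ℕ) = 1 * 57 := rfl
  have e1 : RS 0 = 1 / 40 / (100000 : ℕ) := by norm_num [RS]
  have e2 : 1 - uS 0 = 15 / 16 + 1 / 32 := by norm_num [uS]
  rw [e0, e1, e2]
  refine ⟨y, h1, h2, h3.trans ?_⟩
  simp only [TV]
  norm_num

lemma mR_small (j : ℕ) : RS (j + 1) * 32 ≤ 12 / 25 / (mS j * (4800 * 16 ^ j : ℕ)) := by
  have hb := budget (j + 1)
  have hm : (0 : ℝ) < mS j := by exact_mod_cast mS_pos j
  have h0 : (0 : ℝ) < (4800 * 16 ^ j : ℕ) := by positivity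
  rw [le_div_iff₀ (by positivity)]
  have e1 : (mS (j + 1) : ℝ) = mS j * (4800 * 16 ^ j : ℕ) := by
    rw [mS, Nat.cast_mul]
  rw [e1] at hb
  have h1 : (1 : ℝ) ≤ (4800 * 16 ^ (j + 1) : ℕ) := by
    exact_mod_cast Nat.mul_pos (by norm_num) (by positivity)
  have hR := RS_pos (j + 1)
  have h2 : (57 * 4800 / 4000000 / 32 ^ (j + 1) : ℝ) ≤ 57 * 4800 / 4000000 / 32 := by
    apply div_le_div_of_nonneg_left (by norm_num) (by norm_num)
    exact le_self_pow₀ (by norm_num) (by omega)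
  have h3 : (mS j : ℝ) * (4800 * 16 ^ j : ℕ) * RS (j + 1) * 1 ≤
      (mS j : ℝ) * (4800 * 16 ^ j : ℕ) * RS (j + 1) * (4800 * 16 ^ (j + 1) : ℕ) := by
    gcongr
  have h4 : (mS j : ℝ) * (4800 * 16 ^ j : ℕ) * RS (j + 1) * (4800 * 16 ^ (j + 1) : ℕ) =
      57 * 4800 / 4000000 / 32 ^ (j + 1) := by
    rw [← hb]; ring
  rw [h4] at h3
  nlinarith

theorem stages {X : Set ℂ} (hX : MeasurableSet X)
    (hε : volume X ≤ ENNReal.ofReal (1 / 250)) (j : ℕ) :
    ∃ y : ℕ → ℝ, Thin X (1 - uS j) (12 / 25) (mS j) y (RS j) ∧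
      (∀ l < mS j, 0 ≤ y l ∧ y l + RS j ≤ 1 / 40) ∧
      TV (mS j) y ≤ 4799 / 10000 + 314 / 10000 * (1 - (1 / 32) ^ j) := by
  induction j with
  | zero =>
    obtain ⟨y, h1, h2, h3⟩ := stage_zero hX hε
    exact ⟨y, h1, h2, by simpa using h3⟩
  | succ j ih =>
    obtain ⟨y, h1, h2, h3⟩ := ih
    have hu := uS_pos j
    have hu2 := uS_le j
    have hRj := RS_pos j
    have hRj1 := RS_pos (j + 1)
    have hm : (0 : ℝ) < mS j := by exact_mod_cast mS_pos j
    have hsm := mR_small j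
    have hR1 : RS (j + 1) ≤ 1 := (RS_le (j + 1)).trans (pow_le_one₀ (by norm_num) (by norm_num))
    set d : ℝ := 16 / 33 * (uS j / 8 * RS (j + 1)) with hd
    have hd0 : 0 < d := by rw [hd]; positivity
    have hd1 : d ≤ 1 / 500 * RS (j + 1) := by
      rw [hd]
      nlinarith
    obtain ⟨y', h1', h2', h3'⟩ := step (X := X) hX (ε := 1 / 250) (by norm_num) hε (L := 12 / 25)
      (R0 := 1 / 40) (ρ := 1 / 4) (by norm_num) rho_bound (m := mS j) (mS_pos j) (y := y)
      (R := RS j) (s := 1 - uS j) hRj (by linarith) h1 h2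
      (k := 4800 * 16 ^ j) (q := 2457600 * 16 ^ j) (Nat.mul_pos (by norm_num) (by positivity))
      (Nat.mul_pos (by norm_num) (by positivity)) (t := 1 - uS j / 4) (κ := uS j / 8)
      (d := d) (dθ := 4 / 3 * d) (dv := 2 / 3 * d)
      (τ := 1 / 4) (w := 12 / 25 / (mS j * (4800 * 16 ^ j : ℕ))) (R' := RS (j + 1)) rfl rfl
      (by linarith) (by positivity) (by positivity) (by linarith) (by linarith) (by linarith)
      (by
        set w : ℝ := 12 / 25 / (mS j * (4800 * 16 ^ j : ℕ)) with hw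
        have hw0 : 0 < w := by rw [hw]; positivity
        have e1 : 2 * d * (w + RS (j + 1)) ≤ 2 * d * (33 / 32 * w) := by
          gcongr
          linarith
        refine e1.trans (le_of_eq ?_)
        rw [hd]
        ring)
      (by norm_num)
      (by
        have hpi := Real.pi_gt_three
        have hrp := (ratio_pow j).trans (small_scale j)
        set c : ℝ := uS j / 8 * RS (j + 1) with hc
        have hc0 : 0 < c := by rw [hc]; positivity
        have e1 : 1 / (1 - uS j / 4) ≤ 2 := by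
          rw [div_le_iff₀ (by linarith)]
          linarith
        have e2 : 2 * Real.pi + 2 * (4 / 3 * d) ≤ 3 * Real.pi := by nlinarith
        have e3 : (0 : ℝ) ≤ ((1 - uS j) / (1 - uS j / 4)) ^ (4800 * 16 ^ j - 1) :=
          pow_nonneg (div_nonneg (by linarith) (by linarith)) _
        have e4 : 0 < 1 / (1 - uS j / 4) := by
          apply div_pos <;> linarith
        calc (2 * Real.pi + 2 * (4 / 3 * d)) * (1 / 250) *
              (1 / (1 - uS j / 4) * ((1 - uS j) / (1 - uS j / 4)) ^ (4800 * 16 ^ j - 1))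
            ≤ (3 * Real.pi) * (1 / 250) * (2 * c ^ 3) := by
              gcongr
          _ < 1 / 4 * (2 * (4 / 3 * d) * (Real.pi * (2 / 3 * d) ^ 2)) := by
              rw [hd]
              have : (0 : ℝ) < Real.pi * c ^ 3 := by positivity
              nlinarith)
    refine ⟨y', ?_, ?_, ?_⟩
    · have e : 1 - uS (j + 1) = 1 - uS j / 4 + uS j / 8 := by rw [uS_succ]; ring
      rw [e]
      exact h1'
    · exact h2'
    · have e : TV (mS (j + 1)) y' = TV (mS j * (4800 * 16 ^ j)) y' := rfl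
      rw [e]
      refine h3'.trans ?_
      have e2 : (mS j : ℝ) * ((4800 * 16 ^ j : ℕ) : ℝ) * RS j / (3 * (1 - 1 / 4)) =
          (57 * 4800 / 4000000 * (4 / 9)) * (1 / 32) ^ j := by
        rw [budget j]
        rw [one_div_pow]
        ring
      rw [e2, pow_succ]
      have : (0 : ℝ) < (1 / 32) ^ j := by positivity
      linarith

/-- the lower bound for open sets containing a rigid copy of every path -/
theorem open_bound {X : Set ℂ} (hX : IsOpen X)
    (hcov : ∀ f : ℝ → ℂ, LipschitzWith 1 f →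
      ∃ a b : ℂ, ‖a‖ = 1 ∧ ∀ t ∈ Icc (0 : ℝ) 1, a * f t + b ∈ X) :
    ENNReal.ofReal (1 / 250) < volume X := by
  by_contra hcon
  rw [not_lt] at hcon
  obtain ⟨δ, hδ, hreg⟩ := regular hX hcov
  obtain ⟨j, hj⟩ := exists_pow_lt_of_lt_one hδ (show (1 / 2 : ℝ) < 1 by norm_num)
  have hR : RS j < δ := lt_of_le_of_lt (RS_le j) hj
  have hRpos := RS_pos j
  obtain ⟨y, hthin, hy, htv⟩ := stages hX.measurableSet hcon j
  obtain ⟨n, hn⟩ : ∃ n, mS j = n + 1 := ⟨mS j - 1, by have := mS_pos j; omega⟩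
  have hm : (0 : ℝ) < mS j := by exact_mod_cast mS_pos j
  set w : ℝ := 12 / 25 / (mS j) with hw
  have hw0 : 0 < w := by rw [hw]; positivity
  obtain ⟨h0, f, hf, -, hcover⟩ := reach_stairs (-(12 / 25 / 2)) w hw0.le y n
  have hlen : ((n + 1 : ℕ) : ℝ) * w + TV (n + 1) y ≤ 1 := by
    rw [← hn]
    have e : (mS j : ℝ) * w = 12 / 25 := by rw [hw]; field_simp
    have : (0 : ℝ) < (1 / 32) ^ j := by positivity
    rw [e]
    linarith
  obtain ⟨a, b, ha, hab⟩ := hreg f hf
  obtain ⟨i, hi, hocc⟩ := hthin (Complex.arg a, b)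
  have hmv : ∀ z, mv (Complex.arg a, b) z = a * z + b := by
    intro z
    have h1 := Complex.norm_mul_exp_arg_mul_I a
    rw [ha, Complex.ofReal_one, one_mul] at h1
    unfold mv
    simp only
    rw [mul_comm Complex.I, h1]
  have hsub : rc (-(12 / 25 / 2) + i * w) w (y i) (RS j) ⊆ mv (Complex.arg a, b) ⁻¹' X := by
    intro z hz
    rw [mem_rc] at hz
    obtain ⟨⟨z1, z2⟩, ⟨z3, z4⟩⟩ := hz
    obtain ⟨t, ht, htz⟩ := hcover (show (⟨z.re, y i⟩ : ℂ) ∈ _ by
      refine ⟨i, by omega, rfl, z1, ?_⟩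
      push_cast
      linarith)
    show mv (Complex.arg a, b) z ∈ X
    refine hab t ⟨ht.1, ht.2.trans hlen⟩ ?_
    rw [hmv, Metric.mem_ball, dist_eq_norm, htz]
    have e : a * z + b - (a * ⟨z.re, y i⟩ + b) = a * (((z.im - y i : ℝ) : ℂ) * Complex.I) := by
      have : z - ⟨z.re, y i⟩ = ((z.im - y i : ℝ) : ℂ) * Complex.I := by
        apply Complex.ext <;> simp
      rw [← this]; ring
    rw [e, norm_mul, norm_mul, ha, Complex.norm_I, Complex.norm_real, Real.norm_eq_abs,
      abs_of_nonneg (by linarith)]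
    linarith
  have hfull : occ X (Complex.arg a, b) (rc (-(12 / 25 / 2) + i * w) w (y i) (RS j)) =
      w * RS j := by
    unfold occ
    rw [inter_eq_left.mpr hsub, volume_real_rc hw0.le hRpos.le]
  rw [hfull] at hocc
  have hu := uS_pos j
  have : 0 < uS j * (w * RS j) := by positivity
  nlinarith

end Pool.Agent.helper17.Worm
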